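import Pool.Agent.K3h64.LV.Step

set_option autoImplicit false

namespace Pool.Agent.K3h64.LV

open MeasureTheory Set Filter Topology

/-- `f` is not of the form `(a g + b) / (c g + d)` on `J`. -/
def NM (J : Set ℝ) (f g : ℝ → ℝ) : Prop :=
  ∀ a b c d : ℝ, (c ≠ 0 ∨ d ≠ 0) → ¬ ∀ x ∈ J, (c * g x + d) * f x = a * g x + b

theorem NM.left_nonconst {J : Set ℝ} {f g : ℝ → ℝ} (h : NM J f g) (y : ℝ) : ¬ ∀ x ∈ J, f x = y := by
  intro hy
  refine h 0 y 0 1 (Or.inr one_ne_zero) fun x hx => ?_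
  rw [hy x hx]; ring

theorem NM.right_nonconst {J : Set ℝ} {f g : ℝ → ℝ} (h : NM J f g) (y : ℝ) :
    ¬ ∀ x ∈ J, g x = y := by
  intro hy
  refine h 0 0 1 (-y) (Or.inl one_ne_zero) fun x hx => ?_
  rw [hy x hx]; ring

theorem null_zeros {u : ℝ → ℝ} {J : Set ℝ} (hJ : IsPreconnected J) (hu : AnalyticOnNhd ℝ u J)
    (hne : ¬ ∀ x ∈ J, u x = 0) : volume {x | x ∈ J ∧ u x = 0} = 0 := by
  refine measure_null_of_locally_null _ fun x hx => ?_
  have h1 : ¬ ∃ᶠ z in 𝓝[≠] x, u z = 0 := fun hf =>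
    hne fun y hy => hu.eqOn_zero_of_preconnected_of_frequently_eq_zero hJ hx.1 hf hy
  rw [Filter.not_frequently] at h1
  refine ⟨{x}, ?_, by simp⟩
  rw [mem_nhdsWithin_iff_eventually]
  rw [eventually_nhdsWithin_iff] at h1
  filter_upwards [h1] with y hy hyZ
  by_contra hne2
  exact hy hne2 hyZ.2

theorem ae_nonzero {u : ℝ → ℝ} {J : Set ℝ} (hJ : IsPreconnected J) (hu : AnalyticOnNhd ℝ u J)
    (hne : ¬ ∀ x ∈ J, u x = 0) : ∀ᵐ x, x ∈ J → u x ≠ 0 := by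
  have := null_zeros hJ hu hne
  rw [measure_eq_zero_iff_ae_notMem] at this
  filter_upwards [this] with x hx hxJ h0 using hx ⟨hxJ, h0⟩

theorem ae_deriv_nonzero {u : ℝ → ℝ} {J : Set ℝ} (hJo : IsOpen J) (hJ : IsPreconnected J)
    (hu : AnalyticOnNhd ℝ u J) (hne : ∀ y, ¬ ∀ x ∈ J, u x = y) :
    ∀ᵐ x, x ∈ J → deriv u x ≠ 0 := by
  refine ae_nonzero hJ hu.deriv fun h => ?_
  obtain ⟨a, ha⟩ := hJo.exists_is_const_of_deriv_eq_zero hJ hu.differentiableOn (fun x hx => h x hx)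
  exact hne a ha

/-- The Wronskian-like expression which vanishes identically if and only if `f` is a Moebius
function of `g`. -/
noncomputable def W (f g : ℝ → ℝ) (x y : ℝ) : ℝ :=
  deriv f x * deriv f y * (g x - g y) ^ 2 - deriv g x * deriv g y * (f x - f y) ^ 2

theorem W_ne {f g : ℝ → ℝ} {J : Set ℝ} (hJo : IsOpen J) (hJ : IsPreconnected J)
    (hf : AnalyticOnNhd ℝ f J) (hg : AnalyticOnNhd ℝ g J) (hNM : NM J f g) {x : ℝ} (hx : x ∈ J)
    (hfx : deriv f x ≠ 0) (hgx : deriv g x ≠ 0) : ¬ ∀ y ∈ J, W f g x y = 0 := by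
  intro hW
  have h1 : ∀ᶠ y in 𝓝[≠] x, f y ≠ f x :=
    ((hf x hx).differentiableAt.hasDerivAt).eventually_ne hfx
  have h2 : ∀ᶠ y in 𝓝[≠] x, g y ≠ g x :=
    ((hg x hx).differentiableAt.hasDerivAt).eventually_ne hgx
  have h3 : ∀ᶠ y in 𝓝 x, y ∈ J := hJo.mem_nhds hx
  rw [eventually_nhdsWithin_iff] at h1 h2
  obtain ⟨w, hw, hball⟩ := Metric.eventually_nhds_iff.1 (h1.and (h2.and h3))
  set K : Set ℝ := Ioo x (x + w) with hK
  have hKb : ∀ y ∈ K, f y ≠ f x ∧ g y ≠ g x ∧ y ∈ J := by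
    intro y hy
    have hd : dist y x < w := by
      rw [Real.dist_eq, abs_of_pos (by linarith [hy.1])]; linarith [hy.2]
    obtain ⟨b1, b2, b3⟩ := hball hd
    have hne : y ∈ ({x} : Set ℝ)ᶜ := by
      simp only [mem_compl_iff, mem_singleton_iff]; exact ne_of_gt hy.1
    exact ⟨b1 hne, b2 hne, b3⟩
  set Θ : ℝ → ℝ := fun y => deriv f x * (f y - f x)⁻¹ - deriv g x * (g y - g x)⁻¹ with hΘ
  have hder : ∀ y ∈ K, HasDerivAt Θ 0 y := by
    intro y hy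
    obtain ⟨b1, b2, b3⟩ := hKb y hy
    have hfy := (hf y b3).differentiableAt.hasDerivAt
    have hgy := (hg y b3).differentiableAt.hasDerivAt
    have b1' : f y - f x ≠ 0 := sub_ne_zero.2 b1
    have b2' : g y - g x ≠ 0 := sub_ne_zero.2 b2
    have e := (((hfy.sub_const (f x)).inv b1').const_mul (deriv f x)).sub
      (((hgy.sub_const (g x)).inv b2').const_mul (deriv g x))
    refine e.congr_deriv ?_
    have hWy := hW y b3
    unfold W at hWy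
    field_simp
    linear_combination (-1 : ℝ) * hWy
  have hKo : IsOpen K := isOpen_Ioo
  obtain ⟨C, hC⟩ := hKo.exists_is_const_of_deriv_eq_zero isPreconnected_Ioo
    (fun y hy => (hder y hy).differentiableAt.differentiableWithinAt) (fun y hy => (hder y hy).deriv)
  have hrel : ∀ y ∈ K, (C * g y + (deriv g x - C * g x)) * f y =
      (C * f x + deriv f x) * g y + ((deriv g x - C * g x) * f x - deriv f x * g x) := by
    intro y hy
    obtain ⟨b1, b2, b3⟩ := hKb y hy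
    have b1' : f y - f x ≠ 0 := sub_ne_zero.2 b1
    have b2' : g y - g x ≠ 0 := sub_ne_zero.2 b2
    have hCy := hC y hy
    simp only [hΘ] at hCy
    field_simp at hCy
    linear_combination (-1 : ℝ) * hCy
  -- identity theorem
  set F : ℝ → ℝ := fun y => (C * g y + (deriv g x - C * g x)) * f y -
      ((C * f x + deriv f x) * g y + ((deriv g x - C * g x) * f x - deriv f x * g x)) with hF
  have hFa : AnalyticOnNhd ℝ F J := by
    have c1 : ∀ c : ℝ, AnalyticOnNhd ℝ (fun _ : ℝ => c) J := fun c => analyticOnNhd_const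
    exact ((((c1 _).mul hg).add (c1 _)).mul hf).sub (((c1 _).mul hg).add (c1 _))
  have hmid : x + w / 2 ∈ K := ⟨by linarith, by linarith⟩
  have hev : F =ᶠ[𝓝 (x + w / 2)] 0 := by
    filter_upwards [hKo.mem_nhds hmid] with y hy
    simp only [hF, Pi.zero_apply]
    rw [hrel y hy, sub_self]
  have hzero := hFa.eqOn_zero_of_preconnected_of_eventuallyEq_zero hJ (hKb _ hmid).2.2 hev
  refine hNM (C * f x + deriv f x) ((deriv g x - C * g x) * f x - deriv f x * g x) C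
    (deriv g x - C * g x) ?_ fun y hy => ?_
  · by_cases hC0 : C = 0
    · right; rw [hC0, zero_mul, sub_zero]; exact hgx
    · left; exact hC0
  · have := hzero hy
    simp only [hF, Pi.zero_apply] at this
    linarith

theorem analytic_W {f g : ℝ → ℝ} {J : Set ℝ} (hf : AnalyticOnNhd ℝ f J) (hg : AnalyticOnNhd ℝ g J)
    (x : ℝ) : AnalyticOnNhd ℝ (fun y => W f g x y) J := by
  have c1 : ∀ c : ℝ, AnalyticOnNhd ℝ (fun _ : ℝ => c) J := fun c => analyticOnNhd_const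
  unfold W
  exact (((c1 _).mul hf.deriv).mul (((c1 _).sub hg).pow 2)).sub
    (((c1 _).mul hg.deriv).mul (((c1 _).sub hf).pow 2))

/-- Genericity of a pair `(x, y)`. -/
def Gen (F G : ℕ → ℝ → ℝ) (J : Set ℝ) (x y : ℝ) : Prop :=
  x ∈ J ∧ y ∈ J ∧ (∀ i, deriv (F i) x ≠ 0 ∧ deriv (F i) y ≠ 0 ∧ F i x ≠ F i y) ∧
    (∀ j, deriv (G j) x ≠ 0 ∧ deriv (G j) y ≠ 0 ∧ G j x ≠ G j y) ∧
    ∀ i j, W (F i) (G j) x y ≠ 0

theorem gen_dense {F G : ℕ → ℝ → ℝ} {J : Set ℝ} (hJo : IsOpen J) (hJ : IsPreconnected J)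
    (hF : ∀ i, AnalyticOnNhd ℝ (F i) J) (hG : ∀ i, AnalyticOnNhd ℝ (G i) J)
    (hNM : ∀ i j, NM J (F i) (G j)) {x0 y0 ε : ℝ} (hx : x0 ∈ J) (hy : y0 ∈ J) (hε : 0 < ε) :
    ∃ x y, |x - x0| < ε ∧ |y - y0| < ε ∧ Gen F G J x y := by
  have a1 : ∀ᵐ x, ∀ i, x ∈ J → deriv (F i) x ≠ 0 := by
    rw [ae_all_iff]
    exact fun i => ae_deriv_nonzero hJo hJ (hF i) (hNM i 0).left_nonconst
  have a2 : ∀ᵐ x, ∀ i, x ∈ J → deriv (G i) x ≠ 0 := by
    rw [ae_all_iff]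
    exact fun i => ae_deriv_nonzero hJo hJ (hG i) (hNM 0 i).right_nonconst
  have d1 := Measure.dense_of_ae (a1.and a2)
  obtain ⟨x, hxm, hxp⟩ := d1.inter_open_nonempty (J ∩ Metric.ball x0 ε) (hJo.inter Metric.isOpen_ball)
    ⟨x0, hx, Metric.mem_ball_self hε⟩
  have hxJ : x ∈ J := hxm.1
  have hF1 : ∀ i, deriv (F i) x ≠ 0 := fun i => hxp.1 i hxJ
  have hG1 : ∀ i, deriv (G i) x ≠ 0 := fun i => hxp.2 i hxJ
  have a3 : ∀ᵐ y, ∀ i, y ∈ J → F i x - F i y ≠ 0 := by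
    rw [ae_all_iff]
    refine fun i => ae_nonzero hJ (analyticOnNhd_const.sub (hF i)) fun h => ?_
    exact (hNM i 0).left_nonconst (F i x) fun y hy => (sub_eq_zero.1 (h y hy)).symm
  have a4 : ∀ᵐ y, ∀ i, y ∈ J → G i x - G i y ≠ 0 := by
    rw [ae_all_iff]
    refine fun i => ae_nonzero hJ (analyticOnNhd_const.sub (hG i)) fun h => ?_
    exact (hNM 0 i).right_nonconst (G i x) fun y hy => (sub_eq_zero.1 (h y hy)).symm
  have a5 : ∀ᵐ y, ∀ i j, y ∈ J → W (F i) (G j) x y ≠ 0 := by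
    rw [ae_all_iff]
    intro i
    rw [ae_all_iff]
    exact fun j => ae_nonzero hJ (analytic_W (hF i) (hG j) x)
      (W_ne hJo hJ (hF i) (hG j) (hNM i j) hxJ (hF1 i) (hG1 j))
  have d2 := Measure.dense_of_ae ((a1.and a2).and (a3.and (a4.and a5)))
  obtain ⟨y, hym, hyp⟩ := d2.inter_open_nonempty (J ∩ Metric.ball y0 ε) (hJo.inter Metric.isOpen_ball)
    ⟨y0, hy, Metric.mem_ball_self hε⟩
  have hyJ : y ∈ J := hym.1
  obtain ⟨⟨p1, p2⟩, p3, p4, p5⟩ := hyp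
  refine ⟨x, y, ?_, ?_, hxJ, hyJ, fun i => ⟨hF1 i, p1 i hyJ, sub_ne_zero.1 (p3 i hyJ)⟩,
    fun i => ⟨hG1 i, p2 i hyJ, sub_ne_zero.1 (p4 i hyJ)⟩, fun i j => p5 i j hyJ⟩
  · exact hxm.2
  · exact hym.2

/-- Local inverse. -/
theorem exists_inverse {f : ℝ → ℝ} {x : ℝ} (hf : AnalyticAt ℝ f x) (hfx : deriv f x ≠ 0) :
    ∃ φ : ℝ → ℝ, φ (f x) = x ∧ (∀ᶠ y in 𝓝 (f x), f (φ y) = y) ∧ ContDiffAt ℝ 1 φ (f x) ∧
      HasDerivAt φ (deriv f x)⁻¹ (f x) := by
  have hc : ContDiffAt ℝ 1 f x := hf.contDiffAt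
  have hd : HasDerivAt f (deriv f x) x := hf.differentiableAt.hasDerivAt
  have hfd : HasFDerivAt f ((ContinuousLinearEquiv.unitsEquivAut ℝ (Units.mk0 _ hfx) : ℝ ≃L[ℝ] ℝ) :
      ℝ →L[ℝ] ℝ) x := by
    refine hd.hasFDerivAt.congr_fderiv ?_
    ext; simp
  refine ⟨hc.localInverse hfd one_ne_zero, hc.localInverse_apply_image hfd one_ne_zero,
    (hc.hasStrictFDerivAt' hfd one_ne_zero).eventually_right_inverse,
    hc.to_localInverse hfd one_ne_zero, ?_⟩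
  have h1 := ((hc.hasStrictFDerivAt' hfd one_ne_zero).to_localInverse).hasFDerivAt
  have h2 : HasDerivAt (hc.localInverse hfd one_ne_zero) _ (f x) := h1.hasDerivAt
  refine h2.congr_deriv ?_
  simp

end Pool.Agent.K3h64.LV
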