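import Pool.Agent.K3h64.LV.Core

set_option autoImplicit false

namespace Pool.Agent.K3h64.LV

open Set Filter Topology

/-- Liouville matrices -/
def IsL {n : ℕ} (A : Matrix (Fin n) (Fin n) ℝ) : Prop :=
  (∀ q p : Fin n → ℤ, (q ≠ 0 ∨ p ≠ 0) → A.mulVec (V q) ≠ V p) ∧
  ∀ N : ℕ, ∃ q p : Fin n → ℤ, 2 ≤ ‖V q‖ ∧ ‖A.mulVec (V q) - V p‖ < 1 / ‖V q‖ ^ N

/-- the block matrix -/
noncomputable def T (m : ℕ) (x y t a : ℝ) : Matrix (Fin (2 + m)) (Fin (2 + m)) ℝ :=
  (Matrix.fromBlocks (Bm x y t) 0 0 (a • (1 : Matrix (Fin m) (Fin m) ℝ))).submatrix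
    finSumFinEquiv.symm finSumFinEquiv.symm

theorem Bm_mul {x y x' y' t : ℝ} (ht : t ≠ 0) : Bm x y t * Bm x' y' t = Bm (x * x') (y * y') t := by
  unfold Bm
  rw [Matrix.mul_fin_two]
  ext i j
  fin_cases i <;> fin_cases j <;> simp <;> field_simp <;> ring

theorem Bm_one {t : ℝ} : Bm 1 1 t = 1 := by
  unfold Bm
  ext i j
  fin_cases i <;> fin_cases j <;> simp

theorem Bm_lin {x y t : ℝ} : Bm x y t = x • Bm 1 0 t + y • Bm 0 1 t := by
  unfold Bm
  ext i j
  fin_cases i <;> fin_cases j <;> simp <;> ring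

theorem T_mul {m : ℕ} {x y a x' y' a' t : ℝ} (ht : t ≠ 0) :
    T m x y t a * T m x' y' t a' = T m (x * x') (y * y') t (a * a') := by
  unfold T
  rw [Matrix.submatrix_mul_equiv, Matrix.fromBlocks_multiply]
  simp only [Bm_mul ht, Matrix.mul_zero, Matrix.zero_mul, add_zero, zero_add,
    Matrix.mul_smul, Matrix.mul_one, smul_smul, smul_zero]
  rw [mul_comm a a']

theorem T_one {m : ℕ} {t : ℝ} : T m 1 1 t 1 = 1 := by
  unfold T
  rw [Bm_one, one_smul, Matrix.fromBlocks_one, Matrix.submatrix_one_equiv]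

theorem T_pow {m : ℕ} {x y a t : ℝ} (ht : t ≠ 0) (j : ℕ) :
    T m x y t a ^ j = T m (x ^ j) (y ^ j) t (a ^ j) := by
  induction j with
  | zero => rw [pow_zero, pow_zero, pow_zero, pow_zero, T_one]
  | succ j ih => rw [pow_succ, ih, T_mul ht, ← pow_succ, ← pow_succ, ← pow_succ]

theorem T_lin {m : ℕ} {x y a t : ℝ} :
    T m x y t a = x • T m 1 0 t 0 + y • T m 0 1 t 0 + a • T m 0 0 t 1 := by
  unfold T
  ext i j
  have h0 : Bm 0 0 t = 0 := by
    rw [Bm_lin]; simp
  simp only [Matrix.submatrix_apply, Matrix.add_apply, Matrix.smul_apply, smul_eq_mul]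
  rcases finSumFinEquiv.symm i with i' | i' <;> rcases finSumFinEquiv.symm j with j' | j'
  · simp only [Matrix.fromBlocks_apply₁₁, h0, Matrix.zero_apply, mul_zero, add_zero]
    rw [Bm_lin]
    simp only [Matrix.add_apply, Matrix.smul_apply, smul_eq_mul]
  · simp
  · simp
  · simp

theorem hasSum_T {m : ℕ} {x y a t : ℝ} (ht : t ≠ 0) {c : ℕ → ℝ} {hx hy ha : ℝ}
    (h1 : HasSum (fun j => c j * x ^ j) hx) (h2 : HasSum (fun j => c j * y ^ j) hy)
    (h3 : HasSum (fun j => c j * a ^ j) ha) :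
    HasSum (fun j => c j • T m x y t a ^ j) (T m hx hy t ha) := by
  have e : ∀ j, c j • T m x y t a ^ j = (c j * x ^ j) • T m 1 0 t 0 + (c j * y ^ j) • T m 0 1 t 0 +
      (c j * a ^ j) • T m 0 0 t 1 := by
    intro j
    rw [T_pow ht, T_lin, smul_add, smul_add, smul_smul, smul_smul, smul_smul]
  simp only [e]
  rw [T_lin (x := hx)]
  exact ((h1.smul_const _).add (h2.smul_const _)).add (h3.smul_const _)

theorem T_inl {m : ℕ} {x y a t : ℝ} (v : Fin (2 + m) → ℝ) (i : Fin 2) :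
    (T m x y t a).mulVec v (finSumFinEquiv (Sum.inl i)) =
      (Bm x y t).mulVec (fun k => v (finSumFinEquiv (Sum.inl k))) i := by
  unfold T
  rw [Matrix.mulVec, dotProduct, ← finSumFinEquiv.sum_comp, Fintype.sum_sum_type]
  simp only [Matrix.submatrix_apply, Equiv.symm_apply_apply, Matrix.fromBlocks_apply₁₁,
    Matrix.fromBlocks_apply₁₂, Matrix.zero_apply, zero_mul, Finset.sum_const_zero, add_zero]
  rfl

theorem T_inr {m : ℕ} {x y a t : ℝ} (v : Fin (2 + m) → ℝ) (i : Fin m) :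
    (T m x y t a).mulVec v (finSumFinEquiv (Sum.inr i)) = a * v (finSumFinEquiv (Sum.inr i)) := by
  unfold T
  rw [Matrix.mulVec, dotProduct, ← finSumFinEquiv.sum_comp, Fintype.sum_sum_type]
  simp only [Matrix.submatrix_apply, Equiv.symm_apply_apply, Matrix.fromBlocks_apply₂₁,
    Matrix.fromBlocks_apply₂₂, Matrix.zero_apply, zero_mul, Finset.sum_const_zero, zero_add,
    Matrix.smul_apply, smul_eq_mul, Matrix.one_apply]
  rw [Finset.sum_eq_single i]
  · simp
  · intro j _ hj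
    rw [if_neg (Ne.symm hj)]; simp
  · intro h; exact absurd (Finset.mem_univ i) h

theorem scalar_far {α : ℝ} (h : D (α • (1 : Matrix (Fin 2) (Fin 2) ℝ))) :
    ∃ c : ℝ, 0 < c ∧ ∀ k l : ℤ, k ≠ 0 → c / |(k : ℝ)| ^ 3 ≤ |α * k - l| := by
  obtain ⟨c, hc, h⟩ := h
  refine ⟨c, hc, fun k l hk => ?_⟩
  have hq : (![k, 0] : Fin 2 → ℤ) ≠ 0 := fun hcon => hk (by simpa using congrFun hcon 0)
  have h1 := h ![k, 0] hq ![l, 0]
  have e1 : ‖(![k, 0] : Fin 2 → ℤ)‖ = |(k : ℝ)| := by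
    refine le_antisymm ((pi_norm_le_iff_of_nonneg (abs_nonneg _)).2 fun i => ?_) ?_
    · fin_cases i
      · simp [Int.norm_eq_abs]
      · simp
    · have := norm_le_pi_norm (![k, 0] : Fin 2 → ℤ) 0
      simpa [Int.norm_eq_abs] using this
  have e2 : ‖(α • (1 : Matrix (Fin 2) (Fin 2) ℝ)).mulVec (V ![k, 0]) - V ![l, 0]‖ = |α * k - l| := by
    rw [Matrix.smul_mulVec, Matrix.one_mulVec]
    refine le_antisymm ((pi_norm_le_iff_of_nonneg (abs_nonneg _)).2 fun i => ?_) ?_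
    · fin_cases i
      · simp [V]
      · simp [V]
    · have := norm_le_pi_norm (α • V ![k, 0] - V ![l, 0]) 0
      simpa [V] using this
  rw [e1, e2] at h1
  exact h1

/-- the two parts of an integer vector -/
def q1 {m : ℕ} (q : Fin (2 + m) → ℤ) : Fin 2 → ℤ := fun i => q (finSumFinEquiv (Sum.inl i))

def ext0 {m : ℕ} (q : Fin 2 → ℤ) : Fin (2 + m) → ℤ :=
  fun i => Sum.elim q (fun _ => 0) (finSumFinEquiv.symm i)

theorem norm_q1_le {m : ℕ} (q : Fin (2 + m) → ℤ) : ‖q1 q‖ ≤ ‖q‖ :=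
  (pi_norm_le_iff_of_nonneg (norm_nonneg _)).2 fun _ => norm_le_pi_norm q _

theorem norm_ext0 {m : ℕ} (q : Fin 2 → ℤ) : ‖(ext0 q : Fin (2 + m) → ℤ)‖ = ‖q‖ := by
  refine le_antisymm ((pi_norm_le_iff_of_nonneg (norm_nonneg _)).2 fun i => ?_)
    ((pi_norm_le_iff_of_nonneg (norm_nonneg _)).2 fun i => ?_)
  · unfold ext0
    rcases finSumFinEquiv.symm i with i' | i'
    · exact norm_le_pi_norm q i'
    · simp
  · have := norm_le_pi_norm (ext0 q : Fin (2 + m) → ℤ) (finSumFinEquiv (Sum.inl i))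
    simpa [ext0] using this

theorem isL_T {m : ℕ} {x y t a : ℝ}
    (h1 : ∀ q p : Fin 2 → ℤ, q ≠ 0 → (Bm x y t).mulVec (V q) ≠ V p)
    (h2 : ∀ N : ℕ, ∃ q p : Fin 2 → ℤ, 2 ≤ ‖q‖ ∧ ‖(Bm x y t).mulVec (V q) - V p‖ < 1 / ‖q‖ ^ N)
    (h3 : D (a • (1 : Matrix (Fin 2) (Fin 2) ℝ))) : IsL (T m x y t a) := by
  obtain ⟨c, hc, hfar⟩ := scalar_far h3
  constructor
  · intro q p hqp hcon
    have hq0 : q = 0 := by
      ext i
      obtain ⟨i', rfl⟩ := finSumFinEquiv.surjective i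
      rcases i' with i' | i'
      · by_contra hne
        have hq1 : q1 q ≠ 0 := fun h => hne (by simpa [q1] using congrFun h i')
        refine h1 (q1 q) (q1 p) hq1 ?_
        ext k
        have := congrFun hcon (finSumFinEquiv (Sum.inl k))
        rw [T_inl] at this
        exact this
      · by_contra hne
        have h4 := congrFun hcon (finSumFinEquiv (Sum.inr i'))
        rw [T_inr] at h4
        have h5 := hfar (q (finSumFinEquiv (Sum.inr i'))) (p (finSumFinEquiv (Sum.inr i'))) hne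
        simp only [V] at h4
        rw [h4, sub_self, abs_zero] at h5
        have h6 : 0 < |((q (finSumFinEquiv (Sum.inr i')) : ℤ) : ℝ)| := abs_pos.2 (by exact_mod_cast hne)
        have : 0 < c / |((q (finSumFinEquiv (Sum.inr i')) : ℤ) : ℝ)| ^ 3 := by positivity
        linarith
    rcases hqp with h | h
    · exact h hq0
    · apply h
      ext i
      have h4 := congrFun hcon i
      rw [hq0] at h4
      have : V (0 : Fin (2 + m) → ℤ) = 0 := by ext; simp [V]
      rw [this, Matrix.mulVec_zero] at h4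
      simp only [V, Pi.zero_apply] at h4
      exact_mod_cast h4.symm
  · intro N
    obtain ⟨q, p, hq, hqp⟩ := h2 N
    refine ⟨ext0 q, ext0 p, ?_, ?_⟩
    · rw [norm_V, norm_ext0]; exact hq
    · rw [norm_V, norm_ext0]
      refine lt_of_le_of_lt ?_ hqp
      refine (pi_norm_le_iff_of_nonneg (norm_nonneg _)).2 fun i => ?_
      obtain ⟨i', rfl⟩ := finSumFinEquiv.surjective i
      rcases i' with i' | i'
      · rw [Pi.sub_apply, T_inl]
        have e1 : (fun k => V (ext0 q : Fin (2 + m) → ℤ) (finSumFinEquiv (Sum.inl k))) = V q := by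
          ext k; simp [V, ext0]
        have e2 : V (ext0 p : Fin (2 + m) → ℤ) (finSumFinEquiv (Sum.inl i')) = V p i' := by
          simp [V, ext0]
        rw [e1, e2]
        exact norm_le_pi_norm ((Bm x y t).mulVec (V q) - V p) i'
      · rw [Pi.sub_apply, T_inr]
        have e1 : V (ext0 q : Fin (2 + m) → ℤ) (finSumFinEquiv (Sum.inr i')) = 0 := by
          simp [V, ext0]
        have e2 : V (ext0 p : Fin (2 + m) → ℤ) (finSumFinEquiv (Sum.inr i')) = 0 := by
          simp [V, ext0]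
        rw [e1, e2, mul_zero, sub_zero, norm_zero]
        exact norm_nonneg _

theorem not_isL_T {m : ℕ} {x y t a : ℝ}
    (h1 : ∃ c : ℝ, 0 < c ∧ ∀ q p : Fin 2 → ℤ, q ≠ 0 →
        c / ‖q‖ ^ 10 ≤ ‖(Bm x y t).mulVec (V q) - V p‖)
    (h3 : D (a • (1 : Matrix (Fin 2) (Fin 2) ℝ))) : ¬ IsL (T m x y t a) := by
  obtain ⟨c2, hc2, hfar⟩ := scalar_far h3
  obtain ⟨c1, hc1, h1⟩ := h1
  rintro ⟨-, hL⟩
  set c : ℝ := min c1 c2 with hc
  have hc0 : 0 < c := lt_min hc1 hc2
  obtain ⟨K, hK⟩ := exists_pow_lt_of_lt_one hc0 (show (1 / 2 : ℝ) < 1 by norm_num)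
  obtain ⟨q, p, hq, hqp⟩ := hL (10 + K)
  rw [norm_V] at hq hqp
  have hq0 : 0 < ‖q‖ := by linarith
  have hlow : c / ‖q‖ ^ 10 ≤ ‖(T m x y t a).mulVec (V q) - V p‖ := by
    by_cases hq1 : q1 q = 0
    · have hne : q ≠ 0 := by
        rintro rfl
        rw [norm_zero] at hq0
        exact lt_irrefl _ hq0
      obtain ⟨i, hi⟩ := Function.ne_iff.1 hne
      obtain ⟨i', rfl⟩ := finSumFinEquiv.surjective i
      rcases i' with i' | i'
      · exact absurd (by simpa [q1] using congrFun hq1 i') hi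
      · have h5 := hfar (q (finSumFinEquiv (Sum.inr i'))) (p (finSumFinEquiv (Sum.inr i'))) hi
        have h6 := norm_le_pi_norm ((T m x y t a).mulVec (V q) - V p) (finSumFinEquiv (Sum.inr i'))
        rw [Pi.sub_apply, T_inr] at h6
        simp only [V, Real.norm_eq_abs] at h6
        refine le_trans ?_ (h5.trans h6)
        have h7 : |((q (finSumFinEquiv (Sum.inr i')) : ℤ) : ℝ)| ≤ ‖q‖ := by
          have := norm_le_pi_norm q (finSumFinEquiv (Sum.inr i'))
          rwa [Int.norm_eq_abs] at this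
        have h8 : 0 < |((q (finSumFinEquiv (Sum.inr i')) : ℤ) : ℝ)| :=
          abs_pos.2 (by exact_mod_cast hi)
        have h9 : |((q (finSumFinEquiv (Sum.inr i')) : ℤ) : ℝ)| ^ 3 ≤ ‖q‖ ^ 10 :=
          (pow_le_pow_left₀ (abs_nonneg _) h7 3).trans (pow_le_pow_right₀ (by linarith) (by norm_num))
        exact div_le_div₀ hc2.le (min_le_right _ _) (by positivity) h9
    · have h5 := h1 (q1 q) (q1 p) hq1
      have h6 : ‖(Bm x y t).mulVec (V (q1 q)) - V (q1 p)‖ ≤ ‖(T m x y t a).mulVec (V q) - V p‖ := by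
        refine (pi_norm_le_iff_of_nonneg (norm_nonneg _)).2 fun i => ?_
        have h7 := norm_le_pi_norm ((T m x y t a).mulVec (V q) - V p) (finSumFinEquiv (Sum.inl i))
        rw [Pi.sub_apply, T_inl] at h7
        exact h7
      refine le_trans ?_ (h5.trans h6)
      have h8 : 0 < ‖q1 q‖ := norm_pos_iff.2 hq1
      exact div_le_div₀ hc1.le (min_le_left _ _) (by positivity)
        (pow_le_pow_left₀ (norm_nonneg _) (norm_q1_le q) 10)
  have hup : 1 / ‖q‖ ^ (10 + K) < c / ‖q‖ ^ 10 := by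
    rw [pow_add, ← one_div_mul_one_div, div_eq_mul_one_div c, mul_comm]
    refine mul_lt_mul_of_pos_right ?_ (by positivity)
    refine lt_of_le_of_lt ?_ hK
    rw [one_div_pow]
    exact one_div_le_one_div_of_le (by positivity) (pow_le_pow_left₀ (by norm_num) hq K)
  linarith

end Pool.Agent.K3h64.LV
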