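import Pool.Agent.K3h64.LV.Tay

set_option autoImplicit false

namespace Pool.Agent.K3h64.LV

open Set Filter Topology

theorem cf_of_hasSum {h : ℝ → ℝ} {a : ℕ → ℝ} (ha : ∀ᶠ z : ℝ in 𝓝 0, HasSum (fun n => z ^ n * a n) (h z)) :
    cf h = a := by
  have h1 : HasFPowerSeriesAt h (FormalMultilinearSeries.ofScalars ℝ a) 0 := by
    rw [hasFPowerSeriesAt_iff]
    filter_upwards [ha] with z hz
    rw [zero_add]
    have e : (fun n => z ^ n • (FormalMultilinearSeries.ofScalars ℝ a).coeff n) =
        fun n => z ^ n * a n := by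
      ext n
      rw [FormalMultilinearSeries.coeff_ofScalars, smul_eq_mul]
    rw [e]
    exact hz
  have h2 : HasFPowerSeriesAt h (FormalMultilinearSeries.ofScalars ℝ (cf h)) 0 :=
    h1.analyticAt.hasFPowerSeriesAt
  have h3 := h2.eq_formalMultilinearSeries h1
  ext n
  have h4 := congrArg (fun p => FormalMultilinearSeries.coeff p n) h3
  simpa [FormalMultilinearSeries.coeff_ofScalars] using h4

theorem cf_pow (m j : ℕ) (hj : j < m) : cf (fun x => x ^ m) j = 0 := by
  have : cf (fun x => x ^ m) = fun n => if n = m then 1 else 0 := by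
    refine cf_of_hasSum (Eventually.of_forall fun z => ?_)
    have h1 := hasSum_single (f := fun n => z ^ n * (if n = m then (1 : ℝ) else 0)) m
      (fun b hb => by rw [if_neg hb, mul_zero])
    simpa using h1
  rw [this]
  exact if_neg (ne_of_lt hj)

theorem cf_inv (K : ℝ) (j : ℕ) :
    cf (fun x => (1 + K ^ 2 * x ^ 2)⁻¹) (2 * j) = (-1) ^ j * K ^ (2 * j) := by
  have : cf (fun x => (1 + K ^ 2 * x ^ 2)⁻¹) =
      fun n => if Even n then (-K ^ 2) ^ (n / 2) else 0 := by
    refine cf_of_hasSum ?_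
    have hc : ContinuousAt (fun z : ℝ => |(-(K ^ 2 * z ^ 2))|) 0 := by fun_prop
    have hc1 : ∀ᶠ z : ℝ in 𝓝 0, |(-(K ^ 2 * z ^ 2))| < 1 := hc.eventually_lt_const (by simp)
    filter_upwards [hc1] with z hz
    have h1 := hasSum_geometric_of_abs_lt_one hz
    rw [sub_neg_eq_add] at h1
    have hinj : Function.Injective (fun j : ℕ => 2 * j) := fun a b h => by
      simp only at h; omega
    rw [← hinj.hasSum_iff]
    · have e : ((fun n => z ^ n * if Even n then (-K ^ 2) ^ (n / 2) else 0) ∘ fun j => 2 * j) =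
          fun n => (-(K ^ 2 * z ^ 2)) ^ n := by
        ext n
        simp only [Function.comp, even_two_mul, if_true]
        rw [Nat.mul_div_cancel_left _ (by norm_num : 0 < 2), pow_mul, ← mul_pow]
        congr 1
        ring
      rw [e]
      exact h1
    · intro n hn
      have : ¬ Even n := fun he => hn (by
        obtain ⟨k, hk⟩ := he
        exact ⟨k, by simp only; omega⟩)
      rw [if_neg this, mul_zero]
  rw [this]
  simp only [even_two_mul, if_true]
  rw [Nat.mul_div_cancel_left _ (by norm_num), neg_pow, ← pow_mul]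

/-- A matrix all of whose even powers decay faster than every exponential is nilpotent. -/
theorem nilpotent_of {n : ℕ} (A : Matrix (Fin n) (Fin n) ℝ)
    (h : ∀ K : ℕ, Tendsto (fun j : ℕ => (((K : ℝ) + 1) ^ (2 * j)) • A ^ (2 * j)) atTop (𝓝 0)) :
    A ^ n = 0 := by
  set B : Matrix (Fin n) (Fin n) ℂ := A.map (algebraMap ℝ ℂ) with hB
  have hBp : ∀ j, B ^ j = (A ^ j).map (algebraMap ℝ ℂ) := by
    intro j
    rw [hB]
    exact (((algebraMap ℝ ℂ).mapMatrix (m := Fin n)).map_pow A j).symm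
  have hroot : ∀ μ ∈ B.charpoly.roots, μ = 0 := by
    intro μ hμ
    have hμ1 : B.charpoly.IsRoot μ := Polynomial.isRoot_of_mem_roots hμ
    rw [Polynomial.IsRoot.def, Matrix.eval_charpoly] at hμ1
    obtain ⟨v, hv, hBv⟩ := Matrix.exists_mulVec_eq_zero_iff.2 hμ1
    have hBv1 : B.mulVec v = μ • v := by
      rw [Matrix.sub_mulVec, Matrix.scalar_apply, sub_eq_zero] at hBv
      rw [← hBv]
      ext i
      simp [Matrix.mulVec_diagonal]
    have hBvj : ∀ j : ℕ, (B ^ j).mulVec v = μ ^ j • v := by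
      intro j
      induction j with
      | zero => simp
      | succ j ih => rw [pow_succ, ← Matrix.mulVec_mulVec, hBv1, Matrix.mulVec_smul, ih, smul_smul,
          pow_succ, mul_comm]
    obtain ⟨i, hi⟩ := Function.ne_iff.1 hv
    have hlt : ∀ K : ℕ, ‖μ‖ * ((K : ℝ) + 1) < 1 := by
      intro K
      -- the `i`-th coordinate
      have e : ∀ j : ℕ, ((((K : ℝ) + 1 : ℝ) : ℂ) * μ) ^ (2 * j) * v i =
          ∑ k, ((((((K : ℝ) + 1) ^ (2 * j)) • A ^ (2 * j)) i k : ℝ) : ℂ) * v k := by
        intro j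
        have h1 := congrFun (hBvj (2 * j)) i
        rw [hBp] at h1
        simp only [Matrix.mulVec, dotProduct, Matrix.map_apply, Pi.smul_apply, smul_eq_mul] at h1
        rw [mul_pow, mul_assoc, ← h1, Finset.mul_sum]
        refine Finset.sum_congr rfl fun k _ => ?_
        simp only [Matrix.smul_apply, smul_eq_mul]
        push_cast
        simp only [Complex.coe_algebraMap]
        ring
      have hT : Tendsto (fun j : ℕ => ((((K : ℝ) + 1 : ℝ) : ℂ) * μ) ^ (2 * j) * v i) atTop (𝓝 0) := by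
        simp only [e]
        have h0 : (0 : ℂ) = ∑ k : Fin n, (((0 : Matrix (Fin n) (Fin n) ℝ) i k : ℝ) : ℂ) * v k := by simp
        rw [h0]
        refine tendsto_finsetSum _ fun k _ => ?_
        refine Tendsto.mul_const _ ?_
        have h2 : Tendsto (fun j : ℕ => ((((K : ℝ) + 1) ^ (2 * j)) • A ^ (2 * j)) i k) atTop
            (𝓝 ((0 : Matrix (Fin n) (Fin n) ℝ) i k)) := by
          have h3 := (tendsto_pi_nhds.1 (h K)) i
          exact (tendsto_pi_nhds.1 h3) k
        exact (Complex.continuous_ofReal.tendsto _).comp h2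
      by_contra hge
      rw [not_lt] at hge
      have hge' : ∀ j : ℕ, ‖v i‖ ≤ ‖((((K : ℝ) + 1 : ℝ) : ℂ) * μ) ^ (2 * j) * v i‖ := by
        intro j
        rw [norm_mul, norm_pow, norm_mul]
        have h4 : (1 : ℝ) ≤ ‖(((K : ℝ) + 1 : ℝ) : ℂ)‖ * ‖μ‖ := by
          rw [Complex.norm_real, Real.norm_of_nonneg (by positivity)]
          linarith
        have := one_le_pow₀ h4 (n := 2 * j)
        calc ‖v i‖ = 1 * ‖v i‖ := (one_mul _).symm
          _ ≤ _ := mul_le_mul_of_nonneg_right this (norm_nonneg _)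
      have hn := hT.norm
      rw [norm_zero] at hn
      have := ge_of_tendsto' hn hge'
      have hvi : 0 < ‖v i‖ := norm_pos_iff.2 hi
      linarith
    by_contra hne
    have hpos : 0 < ‖μ‖ := norm_pos_iff.2 hne
    obtain ⟨K, hK⟩ := exists_nat_gt (1 / ‖μ‖)
    have h1 := hlt K
    rw [div_lt_iff₀ hpos] at hK
    nlinarith
  have hchar : B.charpoly = Polynomial.X ^ n := by
    have hs : B.charpoly.Splits := IsAlgClosed.splits _
    have h1 := hs.eq_prod_roots_of_monic (Matrix.charpoly_monic B)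
    have h2 : B.charpoly.roots = Multiset.replicate (Multiset.card B.charpoly.roots) 0 :=
      Multiset.eq_replicate.2 ⟨rfl, hroot⟩
    have h3 : Multiset.card B.charpoly.roots = n := by
      rw [← hs.natDegree_eq_card_roots, Matrix.charpoly_natDegree_eq_dim, Fintype.card_fin]
    rw [h1, h2, h3]
    simp
  have hCH := Matrix.aeval_self_charpoly B
  rw [hchar, map_pow, Polynomial.aeval_X, hBp] at hCH
  ext i j
  have h5 := congrFun (congrFun hCH i) j
  simpa using h5

/-- partial sums converge -/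
def Conv {n : ℕ} (f : ℝ → ℝ) (A B : Matrix (Fin n) (Fin n) ℝ) : Prop :=
  Tendsto (fun N => ∑ j ∈ Finset.range N, cf f j • A ^ j) atTop (𝓝 B)

theorem Conv.terms {n : ℕ} {f : ℝ → ℝ} {A B : Matrix (Fin n) (Fin n) ℝ} (h : Conv f A B) :
    Tendsto (fun j => cf f j • A ^ j) atTop (𝓝 0) := by
  have h1 := (h.comp (tendsto_add_atTop_nat 1)).sub h
  rw [sub_self] at h1
  refine h1.congr fun j => ?_
  simp only [Function.comp, Finset.sum_range_succ, add_sub_cancel_left]

theorem main_neg (n : ℕ) (hn : 2 ≤ n) :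
    ∃ (I : Set ℝ) (f g : ℕ → ℝ → ℝ), IsOpen I ∧ I.OrdConnected ∧ (0 : ℝ) ∈ I ∧
      (∀ k, AnalyticOnNhd ℝ (f k) I) ∧ (∀ k, AnalyticOnNhd ℝ (g k) I) ∧
      (∀ k, NotMoebius I (g k)) ∧ (∀ k l, NotMoebiusOf I (f k) (g l)) ∧
      ∀ A : Matrix (Fin n) (Fin n) ℝ, (∀ k, ∃ C, Conv (g k) A C) →
        ∀ B, ∀ k, Conv (f k) A B → ¬ IsL B := by
  refine ⟨Ioo (-1) 1, fun _ x => x ^ (2 * n + 1), fun k x => (1 + ((k : ℝ) + 1) ^ 2 * x ^ 2)⁻¹,
    isOpen_Ioo, ordConnected_Ioo, ⟨by norm_num, by norm_num⟩, ?_, ?_, ?_, ?_, ?_⟩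
  · intro k
    exact analyticOnNhd_id.pow _
  · intro k
    have h1 : AnalyticOnNhd ℝ (fun x : ℝ => 1 + ((k : ℝ) + 1) ^ 2 * x ^ 2) (Ioo (-1) 1) :=
      analyticOnNhd_const.add (analyticOnNhd_const.mul (analyticOnNhd_id.pow 2))
    exact h1.inv fun x _ => by positivity
  · intro k a b c d hcd hrel
    set K : ℝ := (k : ℝ) + 1 with hK
    have hK0 : 0 < K := by positivity
    have key : ∀ x ∈ Ioo (-1 : ℝ) 1, c * x + d = (a * x + b) * (1 + K ^ 2 * x ^ 2) := by
      intro x hx
      obtain ⟨h1, h2⟩ := hrel x hx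
      have h3 : (1 + K ^ 2 * x ^ 2) ≠ 0 := by positivity
      have h4 : (1 + K ^ 2 * x ^ 2)⁻¹ = (a * x + b) / (c * x + d) := h2
      rw [eq_div_iff h1] at h4
      rw [← h4]
      field_simp
    have k0 := key 0 ⟨by norm_num, by norm_num⟩
    have k1 := key (1 / 2) ⟨by norm_num, by norm_num⟩
    have k2 := key (-1 / 2) ⟨by norm_num, by norm_num⟩
    have k3 := key (1 / 4) ⟨by norm_num, by norm_num⟩
    have hb : b * K ^ 2 = 0 := by linear_combination 4 * k0 - 2 * k1 - 2 * k2
    have hb0 : b = 0 := by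
      rcases mul_eq_zero.1 hb with h | h
      · exact h
      · exact absurd h (by positivity)
    have ha : a * K ^ 2 = 0 := by
      rw [hb0] at k0 k1 k2 k3
      linear_combination (-16 / 3) * (k1 - k2) + (64 / 3) * (k3 - k0) + (0 : ℝ) * k0
    have ha0 : a = 0 := by
      rcases mul_eq_zero.1 ha with h | h
      · exact h
      · exact absurd h (by positivity)
    rw [ha0, hb0] at k0 k1
    have hd : d = 0 := by linarith
    have hc : c = 0 := by rw [hd] at k1; linarith
    rcases hcd with h | h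
    · exact h hc
    · exact h hd
  · intro k l a b c d _ hrel
    have h1 := (hrel (1 / 2) ⟨by norm_num, by norm_num⟩).2
    have h2 := (hrel (-1 / 2) ⟨by norm_num, by norm_num⟩).2
    have e : (1 + ((l : ℝ) + 1) ^ 2 * (-1 / 2) ^ 2)⁻¹ = (1 + ((l : ℝ) + 1) ^ 2 * (1 / 2) ^ 2)⁻¹ := by
      norm_num
    simp only at h1 h2
    rw [e, ← h1] at h2
    have h3 : (-1 / 2 : ℝ) ^ (2 * n + 1) < 0 :=
      Odd.pow_neg (by exact ⟨n, rfl⟩) (by norm_num)
    have h4 : (0 : ℝ) < (1 / 2) ^ (2 * n + 1) := by positivity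
    linarith
  · intro A hg B k hf
    have hnil : A ^ n = 0 := by
      refine nilpotent_of A fun K => ?_
      obtain ⟨C, hC⟩ := hg K
      have h1 := hC.terms
      have h2 : Tendsto (fun j : ℕ => 2 * j) atTop atTop :=
        tendsto_id.const_mul_atTop' (by norm_num)
      have h3 := h1.comp h2
      simp only [Function.comp_def, cf_inv] at h3
      have h4 : Tendsto (fun j : ℕ => (-1 : ℝ) ^ j • (((-1) ^ j * ((K : ℝ) + 1) ^ (2 * j)) • A ^ (2 * j)))
          atTop (𝓝 0) := by
        refine tendsto_pi_nhds.2 fun i => tendsto_pi_nhds.2 fun i' => ?_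
        have h6 := ((tendsto_pi_nhds.1 ((tendsto_pi_nhds.1 h3) i)) i').norm
        have h7 : Tendsto (fun j : ℕ => ‖((-1 : ℝ) ^ j • (((-1) ^ j * ((K : ℝ) + 1) ^ (2 * j)) •
            A ^ (2 * j))) i i'‖) atTop (𝓝 0) := by
          simp only [Matrix.zero_apply, norm_zero] at h6
          refine h6.congr fun j => ?_
          simp only [Matrix.smul_apply, smul_eq_mul, norm_mul, norm_pow, norm_neg, norm_one, one_pow,
            one_mul]
        exact tendsto_zero_iff_norm_tendsto_zero.2 h7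
      refine h4.congr fun j => ?_
      rw [smul_smul, ← mul_assoc, ← mul_pow]
      norm_num
    have hB : B = 0 := by
      refine tendsto_nhds_unique hf ?_
      have : (fun N => ∑ j ∈ Finset.range N, cf (fun x => x ^ (2 * n + 1)) j • A ^ j) =
          fun _ => (0 : Matrix (Fin n) (Fin n) ℝ) := by
        ext1 N
        refine Finset.sum_eq_zero fun j _ => ?_
        by_cases hj : j < 2 * n + 1
        · rw [cf_pow _ _ hj, zero_smul]
        · rw [show j = n + (j - n) by omega, pow_add, hnil, zero_mul, smul_zero]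
      rw [this]
      exact tendsto_const_nhds
    rw [hB]
    rintro ⟨h1, -⟩
    have : Nonempty (Fin n) := ⟨⟨0, by omega⟩⟩
    refine h1 (fun _ => 1) 0 (Or.inl ?_) ?_
    · intro hcon
      have := congrFun hcon (Classical.arbitrary _)
      simp at this
    · rw [Matrix.zero_mulVec]
      ext i
      simp [V]

end Pool.Agent.K3h64.LV
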