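import Pool.Agent.K3h64.LV.Fam

set_option autoImplicit false

namespace Pool.Agent.K3h64.LV

open MeasureTheory Set Filter Topology

/-- clamp to `[-r, r]` -/
noncomputable def cl (a b x : ℝ) : ℝ := max a (min x b)

theorem continuous_cl (a b : ℝ) : Continuous (cl a b) := by unfold cl; fun_prop

theorem cl_mem {a b : ℝ} (hab : a ≤ b) (x : ℝ) : cl a b x ∈ Icc a b :=
  ⟨le_max_left _ _, max_le hab (min_le_right _ _)⟩

theorem cl_eq {a b x : ℝ} (hx : x ∈ Icc a b) : cl a b x = x := by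
  unfold cl; rw [min_eq_left hx.2, max_eq_right hx.1]

/-- The state space: two eigenvalues, the shape parameter, and thresholds. -/
abbrev E : Type := (ℝ × ℝ × ℝ) × (ℕ → ℕ)

/-- The matrix of `h` at a state, made continuous everywhere. -/
noncomputable def Bt (r : ℝ) (h : ℝ → ℝ) (z : E) : Matrix (Fin 2) (Fin 2) ℝ :=
  Bm (h (cl (-r) r z.1.1)) (h (cl (-r) r z.1.2.1)) (cl 1 2 z.1.2.2)

theorem continuous_Bt {r : ℝ} (hr : 0 < r) {h : ℝ → ℝ} (hh : ContinuousOn h (Icc (-r) r))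
    (q : Fin 2 → ℤ) : Continuous fun z : E => (Bt r h z).mulVec (V q) := by
  have h1 : Continuous fun x => h (cl (-r) r x) :=
    hh.comp_continuous (continuous_cl _ _) fun x => cl_mem (by linarith) x
  have h2 : Continuous fun z : E => h (cl (-r) r z.1.1) := h1.comp (by fun_prop)
  have h3 : Continuous fun z : E => h (cl (-r) r z.1.2.1) := h1.comp (by fun_prop)
  have h4 : Continuous fun z : E => cl 1 2 z.1.2.2 := (continuous_cl 1 2).comp (by fun_prop)
  have h5 : ∀ z : E, cl 1 2 z.1.2.2 ≠ 0 := fun z => by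
    have := (cl_mem (show (1 : ℝ) ≤ 2 by norm_num) z.1.2.2).1
    linarith
  refine continuous_pi fun i => ?_
  fin_cases i
  · simp only [Bt, Bm, Matrix.mulVec, dotProduct, Fin.sum_univ_two, Matrix.of_apply, Matrix.cons_val',
      Matrix.cons_val_zero, Matrix.cons_val_one, Matrix.cons_val_fin_one, Fin.zero_eta, Fin.isValue]
    exact (((h2.add h3).div_const 2).mul continuous_const).add
      ((((h2.sub h3).div_const 2).div h4 h5).mul continuous_const)
  · simp only [Bt, Bm, Matrix.mulVec, dotProduct, Fin.sum_univ_two, Matrix.of_apply, Matrix.cons_val',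
      Matrix.cons_val_zero, Matrix.cons_val_one, Matrix.cons_val_fin_one, Fin.mk_one, Fin.isValue]
    exact ((h4.mul ((h2.sub h3).div_const 2)).mul continuous_const).add
      (((h2.add h3).div_const 2).mul continuous_const)

/-- The good states. -/
def Good (F G : ℕ → ℝ → ℝ) (J : Set ℝ) (r : ℝ) : Set E :=
  {z | |z.1.1| < r ∧ |z.1.2.1| < r ∧ 1 < z.1.2.2 ∧ z.1.2.2 < 2 ∧ Gen F G J z.1.1 z.1.2.1 ∧
    (∀ i, D (Bt r (F i) z)) ∧ ∀ j, DE (Bt r (G j) z) (1 / ((z.2 j : ℝ) + 1))}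

theorem Bt_eq {r : ℝ} {h : ℝ → ℝ} {z : E} (h1 : |z.1.1| ≤ r) (h2 : |z.1.2.1| ≤ r)
    (h3 : 1 ≤ z.1.2.2) (h4 : z.1.2.2 ≤ 2) : Bt r h z = Bm (h z.1.1) (h z.1.2.1) z.1.2.2 := by
  unfold Bt
  rw [cl_eq (abs_le.1 h1), cl_eq (abs_le.1 h2), cl_eq ⟨h3, h4⟩]

/-- the sets of states at which the matrix of `h` is approximated to order `N` -/
def UU (r : ℝ) (h : ℝ → ℝ) (N : ℕ) : Set E :=
  {z | ∃ q p : Fin 2 → ℤ, 2 ≤ ‖q‖ ∧ ‖(Bt r h z).mulVec (V q) - V p‖ < 1 / ‖q‖ ^ N}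

theorem isOpen_UU {r : ℝ} (hr : 0 < r) {h : ℝ → ℝ} (hh : ContinuousOn h (Icc (-r) r)) (N : ℕ) :
    IsOpen (UU r h N) := by
  have : UU r h N = ⋃ (q : Fin 2 → ℤ) (p : Fin 2 → ℤ) (_ : 2 ≤ ‖q‖),
      {z : E | ‖(Bt r h z).mulVec (V q) - V p‖ < 1 / ‖q‖ ^ N} := by
    ext z; simp only [UU, Set.mem_ofPred_eq, mem_iUnion, exists_prop]
  rw [this]
  refine isOpen_iUnion fun q => isOpen_iUnion fun p => isOpen_iUnion fun _ => ?_
  exact isOpen_lt (((continuous_Bt hr hh q).sub continuous_const).norm) continuous_const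

/-- rational first column gives membership in all `UU` -/
theorem mem_UU_of_rat {r : ℝ} {h : ℝ → ℝ} {z : E} {ρ1 ρ2 : ℚ} (h1 : Bt r h z 0 0 = ρ1)
    (h2 : Bt r h z 1 0 = ρ2) (N : ℕ) : z ∈ UU r h N := by
  set d : ℕ := 2 * (ρ1.den * ρ2.den) with hd
  have hd1 : 0 < ρ1.den * ρ2.den := Nat.mul_pos ρ1.den_pos ρ2.den_pos
  have hd2 : 2 ≤ d := by omega
  refine ⟨![(d : ℤ), 0], ![2 * ρ1.num * ρ2.den, 2 * ρ2.num * ρ1.den], ?_, ?_⟩
  · refine le_trans ?_ (norm_le_pi_norm (![(d : ℤ), 0] : Fin 2 → ℤ) 0)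
    simp only [Matrix.cons_val_zero, Int.norm_eq_abs]
    rw [abs_of_nonneg (by positivity)]
    exact_mod_cast hd2
  · have e1 : (ρ1 : ℝ) * ρ1.den = ρ1.num := by exact_mod_cast ρ1.mul_den_eq_num
    have e2 : (ρ2 : ℝ) * ρ2.den = ρ2.num := by exact_mod_cast ρ2.mul_den_eq_num
    have hz : (Bt r h z).mulVec (V ![(d : ℤ), 0]) -
        V ![2 * ρ1.num * ρ2.den, 2 * ρ2.num * ρ1.den] = 0 := by
      ext i
      fin_cases i
      · simp only [Matrix.mulVec, dotProduct, Fin.sum_univ_two, V, Matrix.cons_val_zero,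
          Matrix.cons_val_one, Matrix.cons_val_fin_one, Fin.zero_eta, Fin.isValue, Pi.sub_apply,
          Pi.zero_apply, h1, hd]
        push_cast
        linear_combination (2 * (ρ2.den : ℝ)) * e1
      · simp only [Matrix.mulVec, dotProduct, Fin.sum_univ_two, V, Matrix.cons_val_zero,
          Matrix.cons_val_one, Matrix.cons_val_fin_one, Fin.mk_one, Fin.isValue, Pi.sub_apply,
          Pi.zero_apply, h2, hd]
        push_cast
        linear_combination (2 * (ρ1.den : ℝ)) * e2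
    rw [hz, norm_zero]
    have : 0 < ‖(![(d : ℤ), 0] : Fin 2 → ℤ)‖ := by
      rw [norm_pos_iff]
      intro hcon
      have := congrFun hcon 0
      simp only [Matrix.cons_val_zero, Pi.zero_apply] at this
      omega
    positivity

section
variable {F G : ℕ → ℝ → ℝ} {J : Set ℝ} {r : ℝ}

/-- perturbation of a general state into the good ones -/
theorem good_near (hJo : IsOpen J) (hJ : IsPreconnected J)
    (hF : ∀ i, AnalyticOnNhd ℝ (F i) J) (hG : ∀ i, AnalyticOnNhd ℝ (G i) J)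
    (hNM : ∀ i j, NM J (F i) (G j)) (n : ℕ) (R : ℕ → ℕ)
    {x y t : ℝ} (hx : x ∈ J) (hy : y ∈ J) (hxr : |x| < r) (hyr : |y| < r) (ht1 : 1 < t) (ht2 : t < 2)
    (hxy : ∀ j ∈ Finset.range n, G j x ≠ G j y)
    (hDE : ∀ j ∈ Finset.range n, DE (Bm (G j x) (G j y) t) (1 / ((R j : ℝ) + 1)))
    {ε : ℝ} (hε : 0 < ε) :
    ∃ z ∈ Good F G J r, |z.1.1 - x| < ε ∧ |z.1.2.1 - y| < ε ∧ |z.1.2.2 - t| < ε ∧
      ∀ j ∈ Finset.range n, z.2 j = R j := by
  have hε' : 0 < min ε (min (r - |x|) (r - |y|)) := lt_min hε (lt_min (by linarith) (by linarith))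
  obtain ⟨x', y', t', k1, k2, k3, k4, k5, k6, k7, k8, k9⟩ := stepB hJo hJ hF hG hNM (Finset.range n)
    (fun j => 1 / ((R j : ℝ) + 1)) (fun j _ => ⟨by positivity, by
      rw [div_le_one (by positivity)]
      have : (0 : ℝ) ≤ R j := by positivity
      linarith⟩) hx hy ht1 ht2 hxy hDE hε'
  choose R' hR' using fun j => DE_of_D (k8 j)
  have hx' : |x'| < r := by
    have h1 := k1.trans_le ((min_le_right _ _).trans (min_le_left _ _))
    have h2 := abs_sub_abs_le_abs_sub x' x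
    linarith
  have hy' : |y'| < r := by
    have h1 := k2.trans_le ((min_le_right _ _).trans (min_le_right _ _))
    have h2 := abs_sub_abs_le_abs_sub y' y
    linarith
  have hB : ∀ (h : ℝ → ℝ) (R'' : ℕ → ℕ), Bt r h ((x', y', t'), R'') = Bm (h x') (h y') t' :=
    fun h R'' => Bt_eq hx'.le hy'.le k4.le k5.le
  refine ⟨((x', y', t'), fun j => if j < n then R j else R' j), ⟨hx', hy', k4, k5, k6, ?_, ?_⟩,
    k1.trans_le (min_le_left _ _), k2.trans_le (min_le_left _ _), k3.trans_le (min_le_left _ _), ?_⟩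
  · intro i
    rw [hB]; exact k7 i
  · intro j
    rw [hB]
    by_cases hj : j < n
    · simp only [hj, if_true]
      exact k9 j (Finset.mem_range.2 hj)
    · simp only [hj, if_false]
      exact hR' j
  · intro j hj
    simp only [Finset.mem_range.1 hj, if_true]

theorem good_nonempty (hJo : IsOpen J) (hJ : IsPreconnected J) (hr : 0 < r) (h0 : (0 : ℝ) ∈ J)
    (hF : ∀ i, AnalyticOnNhd ℝ (F i) J) (hG : ∀ i, AnalyticOnNhd ℝ (G i) J)
    (hNM : ∀ i j, NM J (F i) (G j)) : (Good F G J r).Nonempty := by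
  obtain ⟨z, hz, _⟩ := good_near (r := r) hJo hJ hF hG hNM 0 (fun _ => 0) (x := 0) (y := 0)
    (t := 3 / 2) h0 h0 (by rw [abs_zero]; exact hr) (by rw [abs_zero]; exact hr) (by norm_num)
    (by norm_num) (by simp) (by simp) one_pos
  exact ⟨z, hz⟩

/-- basic neighbourhoods of a state -/
theorem basis_nhds (z : E) {O : Set E} (hO : IsOpen O) (hz : z ∈ O) :
    ∃ (ε : ℝ) (n : ℕ), 0 < ε ∧ ∀ z' : E, |z'.1.1 - z.1.1| < ε → |z'.1.2.1 - z.1.2.1| < ε →
      |z'.1.2.2 - z.1.2.2| < ε → (∀ j ∈ Finset.range n, z'.2 j = z.2 j) → z' ∈ O := by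
  obtain ⟨O1, O2, h1, h2, h3, h4, h5⟩ := isOpen_prod_iff.1 hO z.1 z.2 hz
  obtain ⟨ε, hε, hball⟩ := Metric.isOpen_iff.1 h1 z.1 h3
  obtain ⟨S, u, hu, hSu⟩ := isOpen_pi_iff.1 h2 z.2 h4
  obtain ⟨n, hn⟩ : ∃ n, ∀ j ∈ S, j < n := ⟨S.sup id + 1, fun j hj => by
    have := Finset.le_sup (f := id) hj
    simp only [id] at this
    omega⟩
  refine ⟨ε, n, hε, fun z' k1 k2 k3 k4 => h5 ⟨hball ?_, hSu ?_⟩⟩
  · rw [Metric.mem_ball, Prod.dist_eq, Prod.dist_eq]
    exact max_lt k1 (max_lt k2 k3)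
  · intro j hj
    rw [k4 j (Finset.mem_range.2 (hn j hj))]
    exact (hu j hj).2

theorem good_dense (hJo : IsOpen J) (hJ : IsPreconnected J) (hr : 0 < r)
    (hrJ : Icc (-r) r ⊆ J)
    (hF : ∀ i, AnalyticOnNhd ℝ (F i) J) (hG : ∀ i, AnalyticOnNhd ℝ (G i) J)
    (hNM : ∀ i j, NM J (F i) (G j)) (i N : ℕ) :
    Good F G J r ⊆ closure (Good F G J r ∩ UU r (F i) N) := by
  intro z hz
  rw [mem_closure_iff]
  intro O hO hzO
  obtain ⟨ε, n, hε, hb⟩ := basis_nhds z hO hzO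
  obtain ⟨b1, b2, b3, b4, b5, b6, b7⟩ := hz
  obtain ⟨g1, g2, g3, g4, g5⟩ := b5
  set ε1 : ℝ := min (ε / 2) (min (min (r - |z.1.1|) (r - |z.1.2.1|))
    (min (z.1.2.2 - 1) (2 - z.1.2.2))) with hε1
  have hε10 : 0 < ε1 := lt_min (by linarith) (lt_min (lt_min (by linarith) (by linarith))
    (lt_min (by linarith) (by linarith)))
  have m1 : ε1 ≤ ε / 2 := min_le_left _ _
  have m2 : ε1 ≤ r - |z.1.1| := (min_le_right _ _).trans ((min_le_left _ _).trans (min_le_left _ _))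
  have m3 : ε1 ≤ r - |z.1.2.1| :=
    (min_le_right _ _).trans ((min_le_left _ _).trans (min_le_right _ _))
  have m4 : ε1 ≤ z.1.2.2 - 1 :=
    (min_le_right _ _).trans ((min_le_right _ _).trans (min_le_left _ _))
  have m5 : ε1 ≤ 2 - z.1.2.2 :=
    (min_le_right _ _).trans ((min_le_right _ _).trans (min_le_right _ _))
  have hDE : ∀ j ∈ Finset.range n, DE (Bm (G j z.1.1) (G j z.1.2.1) z.1.2.2)
      (1 / ((z.2 j : ℝ) + 1)) := by
    intro j _
    rw [← Bt_eq (h := G j) b1.le b2.le b3.le b4.le]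
    exact b7 j
  obtain ⟨x, y, t, k1, k2, k3, k4, k5, k6, k7, ρ1, ρ2, k8, k9⟩ := stepA hJo (hF i) hG
    (Finset.range n) (fun j => 1 / ((z.2 j : ℝ) + 1)) (fun j _ => ⟨by positivity, by
      rw [div_le_one (by positivity)]
      have : (0 : ℝ) ≤ z.2 j := by positivity
      linarith⟩) g1 g2 (g3 i).1 (g3 i).2.1 (g3 i).2.2 (fun j => (g4 j).2.2) (fun j => g5 i j)
      b3 hDE hε10
  have hx : |x| < r := by
    have h2 := abs_sub_abs_le_abs_sub x z.1.1
    linarith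
  have hy : |y| < r := by
    have h2 := abs_sub_abs_le_abs_sub y z.1.2.1
    linarith
  have ht : 1 < t ∧ t < 2 := by
    rw [abs_lt] at k3
    constructor <;> linarith [k3.1, k3.2]
  -- the intermediate state belongs to the open set `UU`
  set z1 : E := ((x, y, t), z.2) with hz1
  have hz1B : Bt r (F i) z1 = Bm (F i x) (F i y) t := Bt_eq hx.le hy.le ht.1.le ht.2.le
  have hz1U : z1 ∈ UU r (F i) N := mem_UU_of_rat (ρ1 := ρ1) (ρ2 := ρ2) (by rw [hz1B]; exact k8)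
    (by rw [hz1B]; exact k9) N
  have hcont : ContinuousOn (F i) (Icc (-r) r) := ((hF i).mono hrJ).continuousOn
  obtain ⟨ε2, n2, hε2, hb2⟩ := basis_nhds z1 (isOpen_UU hr hcont N) hz1U
  obtain ⟨z2, hz2, l1, l2, l3, l4⟩ := good_near (n := n) (R := z.2) hJo hJ hF hG hNM k4 k5 hx hy
    ht.1 ht.2 k6 k7 (lt_min (show 0 < ε / 2 by linarith) hε2)
  -- thresholds of index `≥ n` are irrelevant for `UU`
  have hz2U : z2 ∈ UU r (F i) N := by
    have hz2' : ((z2.1, z.2) : E) ∈ UU r (F i) N := by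
      refine hb2 _ ?_ ?_ ?_ ?_
      · exact l1.trans_le (min_le_right _ _)
      · exact l2.trans_le (min_le_right _ _)
      · exact l3.trans_le (min_le_right _ _)
      · intro j _; rfl
    exact hz2'
  refine ⟨z2, hb z2 ?_ ?_ ?_ ?_, hz2, hz2U⟩
  · have h1 := l1.trans_le (min_le_left _ _)
    have h2 : |z2.1.1 - z.1.1| ≤ |z2.1.1 - x| + |x - z.1.1| := abs_sub_le _ _ _
    linarith
  · have h1 := l2.trans_le (min_le_left _ _)
    have h2 : |z2.1.2.1 - z.1.2.1| ≤ |z2.1.2.1 - y| + |y - z.1.2.1| := abs_sub_le _ _ _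
    linarith
  · have h1 := l3.trans_le (min_le_left _ _)
    have h2 : |z2.1.2.2 - z.1.2.2| ≤ |z2.1.2.2 - t| + |t - z.1.2.2| := abs_sub_le _ _ _
    linarith
  · intro j hj
    exact l4 j hj

/-- The core theorem for `2 x 2` matrices. -/
theorem core (hJo : IsOpen J) (hJ : IsPreconnected J) (hr : 0 < r)
    (hrJ : Icc (-r) r ⊆ J)
    (hF : ∀ i, AnalyticOnNhd ℝ (F i) J) (hG : ∀ i, AnalyticOnNhd ℝ (G i) J)
    (hNM : ∀ i j, NM J (F i) (G j)) :
    ∃ x y t : ℝ, |x| ≤ r ∧ |y| ≤ r ∧ 1 ≤ t ∧ t ≤ 2 ∧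
      (∀ i, (∀ q p : Fin 2 → ℤ, q ≠ 0 → (Bm (F i x) (F i y) t).mulVec (V q) ≠ V p) ∧
        ∀ N : ℕ, ∃ q p : Fin 2 → ℤ, 2 ≤ ‖q‖ ∧
          ‖(Bm (F i x) (F i y) t).mulVec (V q) - V p‖ < 1 / ‖q‖ ^ N) ∧
      ∀ j, ∃ c : ℝ, 0 < c ∧ ∀ q p : Fin 2 → ℤ, q ≠ 0 →
        c / ‖q‖ ^ 10 ≤ ‖(Bm (G j x) (G j y) t).mulVec (V q) - V p‖ := by
  have h0 : (0 : ℝ) ∈ J := hrJ ⟨by linarith, by linarith⟩
  have hFc : ∀ i, ContinuousOn (F i) (Icc (-r) r) := fun i => ((hF i).mono hrJ).continuousOn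
  have hGc : ∀ i, ContinuousOn (G i) (Icc (-r) r) := fun i => ((hG i).mono hrJ).continuousOn
  set A : Set E := Good F G J r with hA
  set X : Set E := closure A with hX
  have hXc : IsClosed X := isClosed_closure
  have : PolishSpace X := hXc.polishSpace
  have : Nonempty X := by
    obtain ⟨z, hz⟩ := good_nonempty (r := r) hJo hJ hr h0 hF hG hNM
    exact ⟨⟨z, subset_closure hz⟩⟩
  -- the open sets
  set U1 : ℕ × ℕ → Set X := fun k => Subtype.val ⁻¹' UU r (F k.1) k.2 with hU1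
  set W1 : ℕ × (Fin 2 → ℤ) × (Fin 2 → ℤ) → Set E := fun k =>
    {z | k.2.1 ≠ 0 → (Bt r (F k.1) z).mulVec (V k.2.1) ≠ V k.2.2} with hW1
  set U2 : ℕ × (Fin 2 → ℤ) × (Fin 2 → ℤ) → Set X := fun k => Subtype.val ⁻¹' W1 k with hU2
  have o1 : ∀ k, IsOpen (U1 k) := fun k =>
    (isOpen_UU hr (hFc k.1) k.2).preimage continuous_subtype_val
  have o2' : ∀ k, IsOpen (W1 k) := by
    intro k
    by_cases hk : k.2.1 = 0
    · have : W1 k = univ := by
        ext z; simp only [hW1, Set.mem_ofPred_eq, mem_univ, iff_true]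
        exact fun h => absurd hk h
      rw [this]; exact isOpen_univ
    · have : W1 k = {z | (Bt r (F k.1) z).mulVec (V k.2.1) ≠ V k.2.2} := by
        ext z; simp only [hW1, Set.mem_ofPred_eq]
        exact ⟨fun h => h hk, fun h _ => h⟩
      rw [this]
      exact isOpen_ne_fun (continuous_Bt hr (hFc k.1) k.2.1) continuous_const
  have o2 : ∀ k, IsOpen (U2 k) := fun k => (o2' k).preimage continuous_subtype_val
  have dense_of : ∀ U : Set E, A ⊆ closure (A ∩ U) → Dense (Subtype.val ⁻¹' U : Set X) := by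
    intro U hU
    rw [dense_iff_inter_open]
    rintro O' hO' ⟨z, hz⟩
    obtain ⟨O, hO, rfl⟩ := isOpen_induced_iff.1 hO'
    obtain ⟨a, haO, haA⟩ := mem_closure_iff.1 z.2 O hO hz
    obtain ⟨b, hbO, hbA, hbU⟩ := mem_closure_iff.1 (hU haA) O hO haO
    exact ⟨⟨b, subset_closure hbA⟩, hbO, hbU⟩
  have d1 : ∀ k, Dense (U1 k) := fun k =>
    dense_of _ (good_dense hJo hJ hr hrJ hF hG hNM k.1 k.2)
  have d2 : ∀ k, Dense (U2 k) := by
    intro k
    refine dense_of _ fun z hz => subset_closure ⟨hz, fun hk hcon => ?_⟩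
    obtain ⟨c, hc, hfar⟩ := hz.2.2.2.2.2.1 k.1
    have h1 := hfar k.2.1 hk k.2.2
    have hq1 := one_le_norm hk
    rw [hcon, sub_self, norm_zero] at h1
    have : 0 < c / ‖k.2.1‖ ^ 3 := by positivity
    linarith
  have D1 := dense_iInter_of_isOpen o1 d1
  have D2 := dense_iInter_of_isOpen o2 d2
  have G1 : IsGδ (⋂ k, U1 k) := IsGδ.iInter_of_isOpen o1
  have G2 : IsGδ (⋂ k, U2 k) := IsGδ.iInter_of_isOpen o2
  obtain ⟨z, hz1, hz2⟩ := (D1.inter_of_Gδ G1 G2 D2).nonempty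
  -- closed conditions
  have hcl : (z : E) ∈ {z : E | |z.1.1| ≤ r ∧ |z.1.2.1| ≤ r ∧ 1 ≤ z.1.2.2 ∧ z.1.2.2 ≤ 2} := by
    have hcl : IsClosed {z : E | |z.1.1| ≤ r ∧ |z.1.2.1| ≤ r ∧ 1 ≤ z.1.2.2 ∧ z.1.2.2 ≤ 2} := by
      have k1 : IsClosed {z : E | |z.1.1| ≤ r} :=
        isClosed_le (f := fun z : E => |z.1.1|) (by fun_prop) continuous_const
      have k2 : IsClosed {z : E | |z.1.2.1| ≤ r} :=
        isClosed_le (f := fun z : E => |z.1.2.1|) (by fun_prop) continuous_const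
      have k3 : IsClosed {z : E | 1 ≤ z.1.2.2} :=
        isClosed_le continuous_const (g := fun z : E => z.1.2.2) (by fun_prop)
      have k4 : IsClosed {z : E | z.1.2.2 ≤ 2} :=
        isClosed_le (f := fun z : E => z.1.2.2) (by fun_prop) continuous_const
      exact k1.inter (k2.inter (k3.inter k4))
    refine closure_minimal (s := A) (fun z hz => ?_) hcl z.2
    exact ⟨hz.1.le, hz.2.1.le, hz.2.2.1.le, hz.2.2.2.1.le⟩
  obtain ⟨c1, c2, c3, c4⟩ := hcl
  have hB : ∀ h : ℝ → ℝ, Bt r h (z : E) = Bm (h (z : E).1.1) (h (z : E).1.2.1) (z : E).1.2.2 :=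
    fun h => Bt_eq c1 c2 c3 c4
  refine ⟨(z : E).1.1, (z : E).1.2.1, (z : E).1.2.2, c1, c2, c3, c4, ?_, ?_⟩
  · intro i
    constructor
    · intro q p hq
      have h1 := mem_iInter.1 hz2 (i, q, p)
      have h2 : (z : E) ∈ W1 (i, q, p) := h1
      have h3 := h2 hq
      rw [hB] at h3
      exact h3
    · intro N
      have h1 := mem_iInter.1 hz1 (i, N)
      have h2 : (z : E) ∈ UU r (F i) N := h1
      obtain ⟨q, p, hq, hqp⟩ := h2
      rw [hB] at hqp
      exact ⟨q, p, hq, hqp⟩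
  · intro j
    refine ⟨1 / (((z : E).2 j : ℝ) + 1), by positivity, fun q p hq => ?_⟩
    rw [← hB]
    have hcl2 : IsClosed {z : E | 1 / ((z.2 j : ℝ) + 1) / ‖q‖ ^ 10 ≤
        ‖(Bt r (G j) z).mulVec (V q) - V p‖} := by
      have hc : Continuous fun z : E => 1 / ((z.2 j : ℝ) + 1) / ‖q‖ ^ 10 := by
        have hn : Continuous fun n : ℕ => 1 / ((n : ℝ) + 1) / ‖q‖ ^ 10 := continuous_of_discreteTopology
        exact hn.comp (by fun_prop)
      exact isClosed_le hc (((continuous_Bt hr (hGc j) q).sub continuous_const).norm)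
    refine closure_minimal (s := A) (fun z hz => ?_) hcl2 z.2
    obtain ⟨c', hc', hfar⟩ := hz.2.2.2.2.2.2 j
    have h1 := hfar q hq p
    have hq1 := one_le_norm hq
    have : 0 < c' / ‖q‖ ^ 3 := by positivity
    exact le_trans (by linarith) h1

end

end Pool.Agent.K3h64.LV
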