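import Pool.Agent.K3h64.LV.Loc

set_option autoImplicit false

namespace Pool.Agent.K3h64.LV

open MeasureTheory Set Filter Topology

/-- The symmetric-type family of commuting matrices with eigenvalues `x`, `y`. -/
noncomputable def Bm (x y t : ℝ) : Matrix (Fin 2) (Fin 2) ℝ :=
  !![(x + y) / 2, (x - y) / 2 / t; t * ((x - y) / 2), (x + y) / 2]

theorem bl_Bm {x y : ℝ} : BL (fun t => Bm x y t) 1 2 (|x - y| / 8) (|x - y| / 2) := by
  intro q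
  have hq : ‖q‖ = max |(q 0 : ℝ)| |(q 1 : ℝ)| := by
    rw [← norm_V q]
    refine le_antisymm ((pi_norm_le_iff_of_nonneg (le_max_of_le_left (abs_nonneg _))).2 fun i => ?_)
      (max_le (norm_le_pi_norm (V q) 0) (norm_le_pi_norm (V q) 1))
    fin_cases i
    · exact le_max_left _ _
    · exact le_max_right _ _
  rcases le_total |(q 0 : ℝ)| |(q 1 : ℝ)| with h | h
  · rw [max_eq_right h] at hq
    refine ⟨0, fun s hs s' hs' => ?_⟩
    have hs0 : 0 < s := by linarith [hs.1]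
    have hs0' : 0 < s' := by linarith [hs'.1]
    have e1 : (Bm x y s).mulVec (V q) 0 - (Bm x y s').mulVec (V q) 0 =
        (x - y) / 2 * (q 1 : ℝ) * ((s' - s) / (s * s')) := by
      simp only [Bm, Matrix.mulVec, dotProduct, Fin.sum_univ_two, Matrix.of_apply, Matrix.cons_val',
        Matrix.cons_val_zero, Matrix.cons_val_one, Matrix.cons_val_fin_one, V]
      field_simp
      ring
    rw [e1, abs_mul, abs_mul, abs_div, abs_div, abs_of_pos (mul_pos hs0 hs0'), abs_sub_comm s' s,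
      abs_of_pos (show (0 : ℝ) < 2 by norm_num), hq]
    have h1 : s * s' ≤ 4 := by nlinarith [hs.1, hs.2, hs'.1, hs'.2]
    have h2 : 1 ≤ s * s' := by nlinarith [hs.1, hs.2, hs'.1, hs'.2]
    have h3 : |s - s'| / 4 ≤ |s - s'| / (s * s') :=
      div_le_div_of_nonneg_left (abs_nonneg _) (by positivity) h1
    have h4 : |s - s'| / (s * s') ≤ |s - s'| := div_le_self (abs_nonneg _) h2
    have h5 : 0 ≤ |x - y| / 2 * |(q 1 : ℝ)| := by positivity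
    constructor
    · calc |x - y| / 8 * |(q 1 : ℝ)| * |s - s'| = |x - y| / 2 * |(q 1 : ℝ)| * (|s - s'| / 4) := by ring
        _ ≤ _ := mul_le_mul_of_nonneg_left h3 h5
    · exact mul_le_mul_of_nonneg_left h4 h5
  · rw [max_eq_left h] at hq
    refine ⟨1, fun s hs s' hs' => ?_⟩
    have e1 : (Bm x y s).mulVec (V q) 1 - (Bm x y s').mulVec (V q) 1 =
        (x - y) / 2 * (q 0 : ℝ) * (s - s') := by
      simp only [Bm, Matrix.mulVec, dotProduct, Fin.sum_univ_two, Matrix.of_apply, Matrix.cons_val',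
        Matrix.cons_val_zero, Matrix.cons_val_one, Matrix.cons_val_fin_one, V]
      ring
    rw [e1, abs_mul, abs_mul, abs_div, abs_of_pos (show (0 : ℝ) < 2 by norm_num), hq]
    have h5 : 0 ≤ |x - y| * |(q 0 : ℝ)| * |s - s'| := by positivity
    constructor <;> nlinarith

theorem ae_Bm {x y : ℝ} (hxy : x ≠ y) : ∀ᵐ t, t ∈ Icc (1 : ℝ) 2 → D (Bm x y t) := by
  have h : 0 < |x - y| := abs_pos.2 (sub_ne_zero.2 hxy)
  exact ae_D _ (by norm_num) (by norm_num) (by positivity) (by positivity) bl_Bm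

theorem DE_of_D {B : Matrix (Fin 2) (Fin 2) ℝ} (h : D B) : ∃ R : ℕ, DE B (1 / ((R : ℝ) + 1)) := by
  obtain ⟨c, hc, h⟩ := h
  obtain ⟨R, hR⟩ := exists_nat_gt (2 / c)
  refine ⟨R, c / 2, by positivity, fun q hq p => le_trans ?_ (h q hq p)⟩
  have hq1 := one_le_norm hq
  have hR1 : 1 / ((R : ℝ) + 1) ≤ c / 2 := by
    rw [div_lt_iff₀ hc] at hR
    rw [div_le_div_iff₀ (by positivity) (by norm_num)]
    linarith
  have h1 : 1 / ((R : ℝ) + 1) / ‖q‖ ^ 10 ≤ c / 2 / ‖q‖ ^ 3 := by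
    have h2 : ‖q‖ ^ 3 ≤ ‖q‖ ^ 10 := pow_le_pow_right₀ hq1 (by norm_num)
    calc 1 / ((R : ℝ) + 1) / ‖q‖ ^ 10 ≤ c / 2 / ‖q‖ ^ 10 :=
          div_le_div_of_nonneg_right hR1 (by positivity)
      _ ≤ c / 2 / ‖q‖ ^ 3 := div_le_div_of_nonneg_left (by positivity) (by positivity) h2
  have h3 : c / ‖q‖ ^ 3 = c / 2 / ‖q‖ ^ 3 + c / 2 / ‖q‖ ^ 3 := by
    rw [← add_div]; congr 1; ring
  linarith

/-- Entries of `Bm` along general functions. -/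
theorem contDiffAt_Bm {E : Type} [NormedAddCommGroup E] [NormedSpace ℝ E] {u v τ : E → ℝ} {z : E}
    (hu : ContDiffAt ℝ 1 u z) (hv : ContDiffAt ℝ 1 v z) (hτ : ContDiffAt ℝ 1 τ z) (h0 : τ z ≠ 0)
    (j k : Fin 2) : ContDiffAt ℝ 1 (fun z => Bm (u z) (v z) (τ z) j k) z := by
  fin_cases j <;> fin_cases k
  · exact (hu.add hv).div_const 2
  · exact ((hu.sub hv).div_const 2).div hτ h0
  · exact hτ.mul ((hu.sub hv).div_const 2)
  · exact (hu.add hv).div_const 2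

theorem hasDerivAt_Bm {u v τ : ℝ → ℝ} {u' v' τ' s : ℝ} (hu : HasDerivAt u u' s)
    (hv : HasDerivAt v v' s) (hτ : HasDerivAt τ τ' s) (h0 : τ s ≠ 0) (j k : Fin 2) :
    HasDerivAt (fun s => Bm (u s) (v s) (τ s) j k)
      ((!![(u' + v') / 2, ((u' - v') / 2 * τ s - (u s - v s) / 2 * τ') / (τ s) ^ 2;
        τ' * ((u s - v s) / 2) + τ s * ((u' - v') / 2), (u' + v') / 2] : Matrix (Fin 2) (Fin 2) ℝ) j k) s := by
  fin_cases j <;> fin_cases k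
  · exact (hu.add hv).div_const 2
  · exact ((hu.sub hv).div_const 2).div hτ h0
  · exact hτ.mul ((hu.sub hv).div_const 2)
  · exact (hu.add hv).div_const 2

/-- The derivative matrix of `Bm` along a curve. -/
noncomputable def dBm (x y t x' y' t' : ℝ) : Matrix (Fin 2) (Fin 2) ℝ :=
  !![(x' + y') / 2, ((x' - y') / 2 * t - (x - y) / 2 * t') / t ^ 2;
        t' * ((x - y) / 2) + t * ((x' - y') / 2), (x' + y') / 2]

theorem loc_Bm {X : Type} [NormedAddCommGroup X] [NormedSpace ℝ X] (u v τ : X × ℝ → ℝ)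
    (x0 : X) (s0 : ℝ) (hu : ContDiffAt ℝ 1 u (x0, s0)) (hv : ContDiffAt ℝ 1 v (x0, s0))
    (hτ : ContDiffAt ℝ 1 τ (x0, s0)) (h0 : τ (x0, s0) ≠ 0) {u' v' τ' : ℝ}
    (hu' : HasDerivAt (fun s => u (x0, s)) u' s0) (hv' : HasDerivAt (fun s => v (x0, s)) v' s0)
    (hτ' : HasDerivAt (fun s => τ (x0, s)) τ' s0)
    (hdet : (dBm (u (x0, s0)) (v (x0, s0)) (τ (x0, s0)) u' v' τ').det ≠ 0) :
    ∃ κ M C w : ℝ, 0 < κ ∧ 0 ≤ M ∧ 0 ≤ C ∧ 0 < w ∧
      (∀ x, dist x x0 ≤ w → BL (fun s => Bm (u (x, s)) (v (x, s)) (τ (x, s))) s0 (s0 + w) κ M) ∧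
      (∀ ℓ, 0 < ℓ → ℓ ≤ w → ∀ x, dist x x0 ≤ ℓ → ∀ s ∈ Icc s0 (s0 + ℓ), ∀ j k,
        |Bm (u (x, s)) (v (x, s)) (τ (x, s)) j k -
          Bm (u (x0, s0)) (v (x0, s0)) (τ (x0, s0)) j k| ≤ C * ℓ) := by
  obtain ⟨κ, M, C, w, h1, h2, h3, h4, h5, h6⟩ :=
    loc_of_contDiff (fun a b z => Bm (u z) (v z) (τ z) a b) x0 s0
      (fun a b => contDiffAt_Bm hu hv hτ h0 a b) (dBm (u (x0, s0)) (v (x0, s0)) (τ (x0, s0)) u' v' τ')
      (fun a b => hasDerivAt_Bm hu' hv' hτ' h0 a b) hdet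
  exact ⟨κ, M, C, w, h1, h2, h3, h4, h5, h6⟩

variable {F G : ℕ → ℝ → ℝ} {J : Set ℝ}

/-- Step B: move to a generic point. -/
theorem stepB (hJo : IsOpen J) (hJ : IsPreconnected J)
    (hF : ∀ i, AnalyticOnNhd ℝ (F i) J) (hG : ∀ i, AnalyticOnNhd ℝ (G i) J)
    (hNM : ∀ i j, NM J (F i) (G j)) (S : Finset ℕ) (c : ℕ → ℝ) (hc : ∀ i ∈ S, 0 < c i ∧ c i ≤ 1)
    {x y t : ℝ} (hx : x ∈ J) (hy : y ∈ J) (ht1 : 1 < t) (ht2 : t < 2)
    (hxy : ∀ j ∈ S, G j x ≠ G j y) (hDE : ∀ j ∈ S, DE (Bm (G j x) (G j y) t) (c j))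
    {ε : ℝ} (hε : 0 < ε) :
    ∃ x' y' t', |x' - x| < ε ∧ |y' - y| < ε ∧ |t' - t| < ε ∧ 1 < t' ∧ t' < 2 ∧ Gen F G J x' y' ∧
      (∀ i, D (Bm (F i x') (F i y') t')) ∧ (∀ j, D (Bm (G j x') (G j y') t')) ∧
      ∀ j ∈ S, DE (Bm (G j x') (G j y') t') (c j) := by
  have hloc : ∀ j ∈ S, ∃ κ M C w : ℝ, 0 < κ ∧ 0 ≤ M ∧ 0 ≤ C ∧ 0 < w ∧
      (∀ z : ℝ × ℝ, dist z (x, y) ≤ w → BL (fun s => Bm (G j z.1) (G j z.2) s) t (t + w) κ M) ∧
      (∀ ℓ, 0 < ℓ → ℓ ≤ w → ∀ z : ℝ × ℝ, dist z (x, y) ≤ ℓ → ∀ s ∈ Icc t (t + ℓ), ∀ a b,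
        |Bm (G j z.1) (G j z.2) s a b - Bm (G j x) (G j y) t a b| ≤ C * ℓ) := by
    intro j hj
    have hδ : G j x - G j y ≠ 0 := sub_ne_zero.2 (hxy j hj)
    have ht0 : t ≠ 0 := by linarith
    have c1 : ContDiffAt ℝ 1 (fun z : (ℝ × ℝ) × ℝ => G j z.1.1) ((x, y), t) := by
      have h1 : ContDiffAt ℝ 1 (G j) (((x, y), t) : (ℝ × ℝ) × ℝ).1.1 := (hG j x hx).contDiffAt
      exact h1.comp ((x, y), t) (contDiffAt_fst.comp _ contDiffAt_fst)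
    have c2 : ContDiffAt ℝ 1 (fun z : (ℝ × ℝ) × ℝ => G j z.1.2) ((x, y), t) := by
      have h1 : ContDiffAt ℝ 1 (G j) (((x, y), t) : (ℝ × ℝ) × ℝ).1.2 := (hG j y hy).contDiffAt
      exact h1.comp ((x, y), t) (contDiffAt_snd.comp _ contDiffAt_fst)
    have hdet : (dBm (G j x) (G j y) t 0 0 1).det ≠ 0 := by
      unfold dBm
      rw [Matrix.det_fin_two_of]
      have : (0 + 0) / 2 * ((0 + 0) / 2) - ((0 - 0) / 2 * t - (G j x - G j y) / 2 * 1) / t ^ 2 *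
          (1 * ((G j x - G j y) / 2) + t * ((0 - 0) / 2)) = ((G j x - G j y) / (2 * t)) ^ 2 := by
        field_simp
        ring
      rw [this]
      exact pow_ne_zero 2 (div_ne_zero hδ (by positivity))
    exact loc_Bm (fun z : (ℝ × ℝ) × ℝ => G j z.1.1) (fun z => G j z.1.2) (fun z => z.2) (x, y) t
      c1 c2 contDiffAt_snd ht0 (hasDerivAt_const t (G j x)) (hasDerivAt_const t (G j y))
      (hasDerivAt_id t) hdet
  obtain ⟨ℓ, hℓ0, hℓ1, hst⟩ := step (X := ℝ × ℝ) (x, y) t S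
    (fun j z s => Bm (G j z.1) (G j z.2) s) c hc
    (fun j hj => hDE j hj) hloc (min (min ε (2 - t)) 1) (lt_min (lt_min hε (by linarith)) one_pos)
  have hℓε : ℓ < ε := hℓ1.trans_le ((min_le_left _ _).trans (min_le_left _ _))
  have hℓt : ℓ < 2 - t := hℓ1.trans_le ((min_le_left _ _).trans (min_le_right _ _))
  obtain ⟨x', y', hx', hy', hgen⟩ := gen_dense hJo hJ hF hG hNM hx hy hℓ0
  have hZ : ∀ᵐ s, s ∈ Icc (1 : ℝ) 2 → (∀ i, D (Bm (F i x') (F i y') s)) ∧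
      (∀ j, D (Bm (G j x') (G j y') s)) := by
    have a1 : ∀ᵐ s, ∀ i, s ∈ Icc (1 : ℝ) 2 → D (Bm (F i x') (F i y') s) := by
      rw [ae_all_iff]
      exact fun i => ae_Bm (hgen.2.2.1 i).2.2
    have a2 : ∀ᵐ s, ∀ i, s ∈ Icc (1 : ℝ) 2 → D (Bm (G i x') (G i y') s) := by
      rw [ae_all_iff]
      exact fun i => ae_Bm (hgen.2.2.2.1 i).2.2
    filter_upwards [a1, a2] with s h1 h2 hs using ⟨fun i => h1 i hs, fun i => h2 i hs⟩
  rw [ae_iff] at hZ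
  obtain ⟨s, hs, hsZ, hs2⟩ := hst (x', y') (by
    rw [Prod.dist_eq]; exact max_le (by rw [Real.dist_eq]; exact hx'.le)
      (by rw [Real.dist_eq]; exact hy'.le)) _ hZ
  have hs1 : 1 < s := lt_of_lt_of_le ht1 hs.1
  have hs3 : s < 2 := lt_of_le_of_lt hs.2 (by linarith)
  simp only [Set.mem_ofPred_eq, not_not] at hsZ
  obtain ⟨q1, q2⟩ := hsZ ⟨hs1.le, hs3.le⟩
  refine ⟨x', y', s, hx'.trans hℓε, hy'.trans hℓε, ?_, hs1, hs3, hgen, q1, q2, hs2⟩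
  rw [abs_of_nonneg (by linarith [hs.1])]
  linarith [hs.2]

/-- Step A: make the first column of `f` rational. -/
theorem stepA (hJo : IsOpen J) {f : ℝ → ℝ}
    (hf : AnalyticOnNhd ℝ f J) (hG : ∀ i, AnalyticOnNhd ℝ (G i) J)
    (S : Finset ℕ) (c : ℕ → ℝ) (hc : ∀ i ∈ S, 0 < c i ∧ c i ≤ 1)
    {x y t : ℝ} (hx : x ∈ J) (hy : y ∈ J) (hfx : deriv f x ≠ 0) (hfy : deriv f y ≠ 0)
    (hfxy : f x ≠ f y) (hgG : ∀ j, G j x ≠ G j y) (hgW : ∀ j, W f (G j) x y ≠ 0)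
    (ht1 : 1 < t)
    (hDE : ∀ j ∈ S, DE (Bm (G j x) (G j y) t) (c j))
    {ε : ℝ} (hε : 0 < ε) :
    ∃ x' y' t', |x' - x| < ε ∧ |y' - y| < ε ∧ |t' - t| < ε ∧ x' ∈ J ∧ y' ∈ J ∧
      (∀ j ∈ S, G j x' ≠ G j y') ∧ (∀ j ∈ S, DE (Bm (G j x') (G j y') t') (c j)) ∧
      ∃ ρ1 ρ2 : ℚ, Bm (f x') (f y') t' 0 0 = ρ1 ∧ Bm (f x') (f y') t' 1 0 = ρ2 := by
  obtain ⟨φ, hφ0, hφ1, hφc, hφd⟩ := exists_inverse (hf x hx) hfx
  obtain ⟨ψ, hψ0, hψ1, hψc, hψd⟩ := exists_inverse (hf y hy) hfy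
  set s0 : ℝ := (f x - f y) / 2 with hs0
  have hs0n : s0 ≠ 0 := by rw [hs0]; exact div_ne_zero (sub_ne_zero.2 hfxy) two_ne_zero
  set z0 : ℝ × ℝ := ((f x + f y) / 2, t * s0) with hz0
  have e1 : z0.1 + s0 = f x := by simp only [hz0, hs0]; ring
  have e2 : z0.1 - s0 = f y := by simp only [hz0, hs0]; ring
  have e3 : z0.2 / s0 = t := by simp only [hz0]; field_simp
  -- the three coordinates
  have cu0 : ContDiffAt ℝ 1 (fun z : (ℝ × ℝ) × ℝ => φ (z.1.1 + z.2)) (z0, s0) := by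
    have h1 : ContDiffAt ℝ 1 φ ((z0, s0).1.1 + (z0, s0).2) := by
      simp only [e1]; exact hφc
    exact h1.comp (z0, s0) ((contDiffAt_fst.comp _ contDiffAt_fst).add contDiffAt_snd)
  have cv0 : ContDiffAt ℝ 1 (fun z : (ℝ × ℝ) × ℝ => ψ (z.1.1 - z.2)) (z0, s0) := by
    have h1 : ContDiffAt ℝ 1 ψ ((z0, s0).1.1 - (z0, s0).2) := by
      simp only [e2]; exact hψc
    exact h1.comp (z0, s0) ((contDiffAt_fst.comp _ contDiffAt_fst).sub contDiffAt_snd)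
  have cτ : ContDiffAt ℝ 1 (fun z : (ℝ × ℝ) × ℝ => z.1.2 / z.2) (z0, s0) :=
    (contDiffAt_snd.comp _ contDiffAt_fst).div contDiffAt_snd hs0n
  have ht0 : t ≠ 0 := by linarith
  have hloc : ∀ j ∈ S, ∃ κ M C w : ℝ, 0 < κ ∧ 0 ≤ M ∧ 0 ≤ C ∧ 0 < w ∧
      (∀ z : ℝ × ℝ, dist z z0 ≤ w → BL (fun s => Bm (G j (φ (z.1 + s))) (G j (ψ (z.1 - s))) (z.2 / s))
        s0 (s0 + w) κ M) ∧
      (∀ ℓ, 0 < ℓ → ℓ ≤ w → ∀ z : ℝ × ℝ, dist z z0 ≤ ℓ → ∀ s ∈ Icc s0 (s0 + ℓ), ∀ a b,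
        |Bm (G j (φ (z.1 + s))) (G j (ψ (z.1 - s))) (z.2 / s) a b -
          Bm (G j (φ (z0.1 + s0))) (G j (ψ (z0.1 - s0))) (z0.2 / s0) a b| ≤ C * ℓ) := by
    intro j hj
    have c1 : ContDiffAt ℝ 1 (fun z : (ℝ × ℝ) × ℝ => G j (φ (z.1.1 + z.2))) (z0, s0) := by
      have h1 : ContDiffAt ℝ 1 (G j) (φ ((z0, s0).1.1 + (z0, s0).2)) := by
        simp only [e1, hφ0]; exact (hG j x hx).contDiffAt
      exact h1.comp (z0, s0) cu0
    have c2 : ContDiffAt ℝ 1 (fun z : (ℝ × ℝ) × ℝ => G j (ψ (z.1.1 - z.2))) (z0, s0) := by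
      have h1 : ContDiffAt ℝ 1 (G j) (ψ ((z0, s0).1.1 - (z0, s0).2)) := by
        simp only [e2, hψ0]; exact (hG j y hy).contDiffAt
      exact h1.comp (z0, s0) cv0
    have d1 : HasDerivAt (fun s => G j (φ (z0.1 + s))) (deriv (G j) x * (deriv f x)⁻¹) s0 := by
      have h1 : HasDerivAt (fun s => z0.1 + s) 1 s0 := (hasDerivAt_id s0).const_add z0.1
      have h2 : HasDerivAt φ (deriv f x)⁻¹ (z0.1 + s0) := by rw [e1]; exact hφd
      have h3 : HasDerivAt (G j) (deriv (G j) x) (φ (z0.1 + s0)) := by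
        rw [e1, hφ0]; exact (hG j x hx).differentiableAt.hasDerivAt
      have h4 := h3.comp s0 (h2.comp s0 h1)
      rw [mul_one] at h4
      exact h4
    have d2 : HasDerivAt (fun s => G j (ψ (z0.1 - s))) (-(deriv (G j) y * (deriv f y)⁻¹)) s0 := by
      have h1 : HasDerivAt (fun s => z0.1 - s) (-1) s0 := (hasDerivAt_id s0).const_sub z0.1
      have h2 : HasDerivAt ψ (deriv f y)⁻¹ (z0.1 - s0) := by rw [e2]; exact hψd
      have h3 : HasDerivAt (G j) (deriv (G j) y) (ψ (z0.1 - s0)) := by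
        rw [e2, hψ0]; exact (hG j y hy).differentiableAt.hasDerivAt
      have h4 := h3.comp s0 (h2.comp s0 h1)
      refine h4.congr_deriv ?_
      ring
    have d3 : HasDerivAt (fun s => z0.2 / s) (-(t / s0)) s0 := by
      have h1 := (hasDerivAt_const s0 z0.2).div (hasDerivAt_id s0) hs0n
      refine h1.congr_deriv ?_
      simp only [hz0, id]
      field_simp
      ring
    have hdet : (dBm (G j (φ (z0.1 + s0))) (G j (ψ (z0.1 - s0))) (z0.2 / s0)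
        (deriv (G j) x * (deriv f x)⁻¹) (-(deriv (G j) y * (deriv f y)⁻¹)) (-(t / s0))).det ≠ 0 := by
      rw [e1, e2, e3, hφ0, hψ0]
      unfold dBm
      rw [Matrix.det_fin_two_of]
      have hW := hgW j
      unfold W at hW
      have hne : f x - f y ≠ 0 := sub_ne_zero.2 hfxy
      have hid : (deriv (G j) x * (deriv f x)⁻¹ + -(deriv (G j) y * (deriv f y)⁻¹)) / 2 *
        ((deriv (G j) x * (deriv f x)⁻¹ + -(deriv (G j) y * (deriv f y)⁻¹)) / 2) -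
        ((deriv (G j) x * (deriv f x)⁻¹ - -(deriv (G j) y * (deriv f y)⁻¹)) / 2 * t -
          (G j x - G j y) / 2 * -(t / s0)) / t ^ 2 *
        (-(t / s0) * ((G j x - G j y) / 2) +
          t * ((deriv (G j) x * (deriv f x)⁻¹ - -(deriv (G j) y * (deriv f y)⁻¹)) / 2)) =
        (deriv f x * deriv f y * (G j x - G j y) ^ 2 -
          deriv (G j) x * deriv (G j) y * (f x - f y) ^ 2) /
          (deriv f x * deriv f y * (f x - f y) ^ 2) := by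
        rw [hs0]
        field_simp
        ring
      rw [hid]
      exact div_ne_zero hW (by positivity)
    exact loc_Bm (fun z : (ℝ × ℝ) × ℝ => G j (φ (z.1.1 + z.2))) (fun z => G j (ψ (z.1.1 - z.2)))
      (fun z => z.1.2 / z.2) z0 s0 c1 c2 cτ (by simp only [e3]; exact ht0) d1 d2 d3 hdet
  -- conditions near the base point
  have cu : Tendsto (fun z : (ℝ × ℝ) × ℝ => φ (z.1.1 + z.2)) (𝓝 (z0, s0)) (𝓝 x) := by
    have := cu0.continuousAt.tendsto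
    simp only [e1, hφ0] at this
    exact this
  have cv : Tendsto (fun z : (ℝ × ℝ) × ℝ => ψ (z.1.1 - z.2)) (𝓝 (z0, s0)) (𝓝 y) := by
    have := cv0.continuousAt.tendsto
    simp only [e2, hψ0] at this
    exact this
  have ct : Tendsto (fun z : (ℝ × ℝ) × ℝ => z.1.2 / z.2) (𝓝 (z0, s0)) (𝓝 t) := by
    have := cτ.continuousAt.tendsto
    simp only [e3] at this
    exact this
  have n1 : ∀ᶠ z : (ℝ × ℝ) × ℝ in 𝓝 (z0, s0), |φ (z.1.1 + z.2) - x| < ε := by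
    filter_upwards [cu (Metric.ball_mem_nhds x hε)] with z hz using hz
  have n2 : ∀ᶠ z : (ℝ × ℝ) × ℝ in 𝓝 (z0, s0), |ψ (z.1.1 - z.2) - y| < ε := by
    filter_upwards [cv (Metric.ball_mem_nhds y hε)] with z hz using hz
  have n3 : ∀ᶠ z : (ℝ × ℝ) × ℝ in 𝓝 (z0, s0), |z.1.2 / z.2 - t| < ε := by
    filter_upwards [ct (Metric.ball_mem_nhds t hε)] with z hz using hz
  have n4 : ∀ᶠ z : (ℝ × ℝ) × ℝ in 𝓝 (z0, s0), φ (z.1.1 + z.2) ∈ J := cu (hJo.mem_nhds hx)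
  have n5 : ∀ᶠ z : (ℝ × ℝ) × ℝ in 𝓝 (z0, s0), ψ (z.1.1 - z.2) ∈ J := cv (hJo.mem_nhds hy)
  have n6 : ∀ᶠ z : (ℝ × ℝ) × ℝ in 𝓝 (z0, s0), ∀ j ∈ S,
      G j (φ (z.1.1 + z.2)) ≠ G j (ψ (z.1.1 - z.2)) := by
    rw [eventually_all_finset]
    intro j _
    have g1 : Tendsto (fun z : (ℝ × ℝ) × ℝ => G j (φ (z.1.1 + z.2))) (𝓝 (z0, s0)) (𝓝 (G j x)) :=
      (hG j x hx).continuousAt.tendsto.comp cu
    have g2 : Tendsto (fun z : (ℝ × ℝ) × ℝ => G j (ψ (z.1.1 - z.2))) (𝓝 (z0, s0)) (𝓝 (G j y)) :=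
      (hG j y hy).continuousAt.tendsto.comp cv
    exact ((g1.sub g2).eventually_ne (sub_ne_zero.2 (hgG j))).mono fun z h => sub_ne_zero.1 h
  have n7 : ∀ᶠ z : (ℝ × ℝ) × ℝ in 𝓝 (z0, s0), f (φ (z.1.1 + z.2)) = z.1.1 + z.2 := by
    have h1 : Tendsto (fun z : (ℝ × ℝ) × ℝ => z.1.1 + z.2) (𝓝 (z0, s0)) (𝓝 (f x)) := by
      have : ContinuousAt (fun z : (ℝ × ℝ) × ℝ => z.1.1 + z.2) (z0, s0) := by fun_prop
      have h2 := this.tendsto
      simp only [e1] at h2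
      exact h2
    exact h1.eventually hφ1
  have n8 : ∀ᶠ z : (ℝ × ℝ) × ℝ in 𝓝 (z0, s0), f (ψ (z.1.1 - z.2)) = z.1.1 - z.2 := by
    have h1 : Tendsto (fun z : (ℝ × ℝ) × ℝ => z.1.1 - z.2) (𝓝 (z0, s0)) (𝓝 (f y)) := by
      have : ContinuousAt (fun z : (ℝ × ℝ) × ℝ => z.1.1 - z.2) (z0, s0) := by fun_prop
      have h2 := this.tendsto
      simp only [e2] at h2
      exact h2
    exact h1.eventually hψ1
  have n9 : ∀ᶠ z : (ℝ × ℝ) × ℝ in 𝓝 (z0, s0), z.2 ≠ 0 := by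
    have : ContinuousAt (fun z : (ℝ × ℝ) × ℝ => z.2) (z0, s0) := by fun_prop
    exact this.eventually_ne hs0n
  obtain ⟨w', hw', hball⟩ := Metric.eventually_nhds_iff.1
    (n1.and (n2.and (n3.and (n4.and (n5.and (n6.and (n7.and (n8.and n9))))))))
  have hbase : ∀ j ∈ S, DE (Bm (G j (φ (z0.1 + s0))) (G j (ψ (z0.1 - s0))) (z0.2 / s0)) (c j) := by
    intro j hj
    rw [e1, e2, e3, hφ0, hψ0]
    exact hDE j hj
  obtain ⟨ℓ, hℓ0, hℓ1, hst⟩ := step (X := ℝ × ℝ) z0 s0 S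
    (fun j z s => Bm (G j (φ (z.1 + s))) (G j (ψ (z.1 - s))) (z.2 / s)) c hc hbase hloc w' hw'
  obtain ⟨ρ1, hρ1, hρ1'⟩ := exists_rat_btwn (show z0.1 < z0.1 + ℓ by linarith)
  obtain ⟨ρ2, hρ2, hρ2'⟩ := exists_rat_btwn (show z0.2 < z0.2 + ℓ by linarith)
  have hdz : dist (((ρ1 : ℝ), (ρ2 : ℝ)) : ℝ × ℝ) z0 ≤ ℓ := by
    rw [Prod.dist_eq]
    refine max_le ?_ ?_
    · rw [Real.dist_eq, abs_of_pos (by simp only; linarith)]; simp only; linarith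
    · rw [Real.dist_eq, abs_of_pos (by simp only; linarith)]; simp only; linarith
  obtain ⟨s, hs, -, hs2⟩ := hst ((ρ1 : ℝ), (ρ2 : ℝ)) hdz ∅ measure_empty
  have hds : dist ((((ρ1 : ℝ), (ρ2 : ℝ)), s) : (ℝ × ℝ) × ℝ) (z0, s0) < w' := by
    rw [Prod.dist_eq]
    refine lt_of_le_of_lt (max_le hdz ?_) hℓ1
    rw [Real.dist_eq, abs_of_nonneg (by simp only; linarith [hs.1])]; simp only; linarith [hs.2]
  obtain ⟨m1, m2, m3, m4, m5, m6, m7, m8, m9⟩ := hball hds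
  refine ⟨_, _, _, m1, m2, m3, m4, m5, m6, hs2, ρ1, ρ2, ?_, ?_⟩
  · rw [m7, m8]
    simp only [Bm, Matrix.of_apply, Matrix.cons_val', Matrix.cons_val_zero, Matrix.cons_val_fin_one]
    ring
  · rw [m7, m8]
    simp only [Bm, Matrix.of_apply, Matrix.cons_val', Matrix.cons_val_zero, Matrix.cons_val_fin_one,
      Matrix.cons_val_one]
    simp only at m9
    field_simp
    ring

end Pool.Agent.K3h64.LV
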