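import Pool.Agent.K3h64.LV.Ana

set_option autoImplicit false

namespace Pool.Agent.K3h64.LV

open MeasureTheory Set Filter Topology

/-- the coordinate of maximal modulus -/
theorem exists_coord (v : Fin 2 → ℝ) : ∃ r, |v r| = ‖v‖ := by
  have h : ‖v‖ ∈ ({|v 0|, |v 1|} : Set ℝ) := by
    rcases le_total |v 0| |v 1| with h | h
    · right
      rw [mem_singleton_iff]
      refine le_antisymm ((pi_norm_le_iff_of_nonneg (abs_nonneg _)).2 fun i => ?_)
        (norm_le_pi_norm v 1)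
      fin_cases i
      · exact h
      · exact le_rfl
    · left
      refine le_antisymm ((pi_norm_le_iff_of_nonneg (abs_nonneg _)).2 fun i => ?_)
        (norm_le_pi_norm v 0)
      fin_cases i
      · exact le_rfl
      · exact h
  rcases h with h | h
  · exact ⟨0, h.symm⟩
  · exact ⟨1, h.symm⟩

/-- An invertible matrix is bounded below on some coordinate. -/
theorem lower_of_det {m : Matrix (Fin 2) (Fin 2) ℝ} (hm : m.det ≠ 0) :
    ∃ κ N : ℝ, 0 < κ ∧ 0 < N ∧ (∀ j k, |m j k| ≤ N) ∧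
      ∀ v : Fin 2 → ℝ, ∃ r, κ * ‖v‖ ≤ |m.mulVec v r| := by
  set N : ℝ := |m 0 0| + |m 0 1| + |m 1 0| + |m 1 1| + 1 with hN
  have hN0 : 0 < N := by positivity
  have hle : ∀ j k, |m j k| ≤ N := by
    intro j k
    have a := abs_nonneg (m 0 0); have b := abs_nonneg (m 0 1)
    have c := abs_nonneg (m 1 0); have d := abs_nonneg (m 1 1)
    fin_cases j <;> fin_cases k <;> simp only [hN, Fin.mk_zero, Fin.mk_one, Fin.zero_eta, Fin.isValue] <;> linarith
  refine ⟨|m.det| / (2 * N), N, by positivity, hN0, hle, fun v => ?_⟩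
  obtain ⟨r, hr⟩ := exists_coord (m.mulVec v)
  refine ⟨r, ?_⟩
  rw [hr]
  obtain ⟨s, hs⟩ := exists_coord v
  rw [← hs, div_mul_eq_mul_div, div_le_iff₀ (by positivity), ← abs_mul]
  have h0 : |m.mulVec v 0| ≤ ‖m.mulVec v‖ := norm_le_pi_norm (m.mulVec v) 0
  have h1 : |m.mulVec v 1| ≤ ‖m.mulVec v‖ := norm_le_pi_norm (m.mulVec v) 1
  have key : ∀ x y : ℝ, |x| ≤ N → |y| ≤ N →
      |x * m.mulVec v 0 + y * m.mulVec v 1| ≤ ‖m.mulVec v‖ * (2 * N) := by
    intro x y hx hy
    calc |x * m.mulVec v 0 + y * m.mulVec v 1| ≤ |x * m.mulVec v 0| + |y * m.mulVec v 1| :=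
          abs_add_le _ _
      _ = |x| * |m.mulVec v 0| + |y| * |m.mulVec v 1| := by rw [abs_mul, abs_mul]
      _ ≤ N * ‖m.mulVec v‖ + N * ‖m.mulVec v‖ := add_le_add
          (mul_le_mul hx h0 (abs_nonneg _) hN0.le) (mul_le_mul hy h1 (abs_nonneg _) hN0.le)
      _ = ‖m.mulVec v‖ * (2 * N) := by ring
  fin_cases s
  · have e : m.det * v 0 = m 1 1 * m.mulVec v 0 + (-m 0 1) * m.mulVec v 1 := by
      rw [Matrix.det_fin_two]
      simp only [Matrix.mulVec, dotProduct, Fin.sum_univ_two]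
      ring
    simp only [Fin.zero_eta, Fin.isValue]
    rw [e]
    exact key _ _ (hle 1 1) (by rw [abs_neg]; exact hle 0 1)
  · have e : m.det * v 1 = (-m 1 0) * m.mulVec v 0 + m 0 0 * m.mulVec v 1 := by
      rw [Matrix.det_fin_two]
      simp only [Matrix.mulVec, dotProduct, Fin.sum_univ_two]
      ring
    simp only [Fin.mk_one, Fin.isValue]
    rw [e]
    exact key _ _ (by rw [abs_neg]; exact hle 1 0) (hle 0 0)

/-- local data from strict differentiability -/
theorem loc_of_strict {X : Type} [NormedAddCommGroup X] [NormedSpace ℝ X] (e : Fin 2 → Fin 2 → X × ℝ → ℝ)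
    (x0 : X) (s0 : ℝ) (L : Fin 2 → Fin 2 → (X × ℝ →L[ℝ] ℝ))
    (hL : ∀ j k, HasStrictFDerivAt (e j k) (L j k) (x0, s0))
    (m : Matrix (Fin 2) (Fin 2) ℝ) (hm : ∀ j k, m j k = L j k (0, 1)) (hdet : m.det ≠ 0) :
    ∃ κ M C w : ℝ, 0 < κ ∧ 0 ≤ M ∧ 0 ≤ C ∧ 0 < w ∧
      (∀ x, dist x x0 ≤ w → BL (fun s => Matrix.of fun j k => e j k (x, s)) s0 (s0 + w) κ M) ∧
      (∀ ℓ, 0 < ℓ → ℓ ≤ w → ∀ x, dist x x0 ≤ ℓ → ∀ s ∈ Icc s0 (s0 + ℓ), ∀ j k,
        |e j k (x, s) - e j k (x0, s0)| ≤ C * ℓ) := by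
  obtain ⟨κ, N, hκ, hN, hmN, hlow⟩ := lower_of_det hdet
  set η : ℝ := κ / 4 with hη
  have hη0 : 0 < η := by positivity
  have hev : ∀ j k, ∀ᶠ p : (X × ℝ) × (X × ℝ) in 𝓝 ((x0, s0), (x0, s0)),
      ‖e j k p.1 - e j k p.2 - L j k (p.1 - p.2)‖ ≤ η * ‖p.1 - p.2‖ := fun j k =>
    (hL j k).isLittleO.def hη0
  have hev2 : ∀ᶠ p : (X × ℝ) × (X × ℝ) in 𝓝 ((x0, s0), (x0, s0)), ∀ j k,
      ‖e j k p.1 - e j k p.2 - L j k (p.1 - p.2)‖ ≤ η * ‖p.1 - p.2‖ := by
    rw [eventually_all]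
    intro j
    rw [eventually_all]
    exact hev j
  obtain ⟨w0, hw0, hball⟩ := Metric.eventually_nhds_iff.1 hev2
  set w : ℝ := w0 / 2 with hw
  have hw1 : 0 < w := by positivity
  have hww : w < w0 := by rw [hw]; linarith
  have hdist : ∀ x x' : X, ∀ s s' : ℝ, dist x x0 ≤ w → dist x' x0 ≤ w → s ∈ Icc s0 (s0 + w) →
      s' ∈ Icc s0 (s0 + w) → dist (((x, s), (x', s')) : (X × ℝ) × (X × ℝ)) ((x0, s0), (x0, s0)) < w0 := by
    intro x x' s s' h1 h2 h3 h4
    have h5 : dist s s0 ≤ w := by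
      rw [Real.dist_eq, abs_of_nonneg (by linarith [h3.1])]; linarith [h3.2]
    have h6 : dist s' s0 ≤ w := by
      rw [Real.dist_eq, abs_of_nonneg (by linarith [h4.1])]; linarith [h4.2]
    simp only [Prod.dist_eq]
    exact lt_of_le_of_lt (max_le (max_le h1 h5) (max_le h2 h6)) hww
  set C : ℝ := ‖L 0 0‖ + ‖L 0 1‖ + ‖L 1 0‖ + ‖L 1 1‖ + η with hC
  refine ⟨κ / 2, 2 * N + 2 * η, C, w, by positivity, by positivity, by positivity, hw1, ?_, ?_⟩
  · intro x hx q
    obtain ⟨r, hr⟩ := hlow (V q)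
    rw [norm_V] at hr
    refine ⟨r, fun s hs s' hs' => ?_⟩
    have hb := hball (hdist x x s s' hx hx hs hs')
    have hb2 : ∀ k, |e r k (x, s) - e r k (x, s') - m r k * (s - s')| ≤ η * |s - s'| := by
      intro k
      have h1 := hb r k
      have h2 : ((x, s) : X × ℝ) - (x, s') = (s - s') • ((0 : X), (1 : ℝ)) := by
        ext <;> simp
      have h3 : ‖((x, s) : X × ℝ) - (x, s')‖ = |s - s'| := by
        rw [Prod.mk_sub_mk, sub_self, Prod.norm_def]
        simp
      simp only at h1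
      rw [h3, h2, map_smul, ← hm r k, smul_eq_mul, Real.norm_eq_abs] at h1
      rw [mul_comm (m r k)]
      exact h1
    have hq : ∀ k, |V q k| ≤ ‖q‖ := fun k => by
      rw [← norm_V q, ← Real.norm_eq_abs]; exact norm_le_pi_norm (V q) k
    set Δ : ℝ := (Matrix.of fun j k => e j k (x, s)).mulVec (V q) r -
      (Matrix.of fun j k => e j k (x, s')).mulVec (V q) r with hΔ
    have hΔe : Δ = m.mulVec (V q) r * (s - s') +
        ((e r 0 (x, s) - e r 0 (x, s') - m r 0 * (s - s')) * V q 0 +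
          (e r 1 (x, s) - e r 1 (x, s') - m r 1 * (s - s')) * V q 1) := by
      rw [hΔ]
      simp only [Matrix.mulVec, dotProduct, Fin.sum_univ_two, Matrix.of_apply]
      ring
    have herr : |(e r 0 (x, s) - e r 0 (x, s') - m r 0 * (s - s')) * V q 0 +
          (e r 1 (x, s) - e r 1 (x, s') - m r 1 * (s - s')) * V q 1| ≤ 2 * η * ‖q‖ * |s - s'| := by
      refine (abs_add_le _ _).trans ?_
      rw [abs_mul, abs_mul]
      calc _ ≤ (η * |s - s'|) * ‖q‖ + (η * |s - s'|) * ‖q‖ := add_le_add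
            (mul_le_mul (hb2 0) (hq 0) (abs_nonneg _) (by positivity))
            (mul_le_mul (hb2 1) (hq 1) (abs_nonneg _) (by positivity))
        _ = 2 * η * ‖q‖ * |s - s'| := by ring
    have hmain : |m.mulVec (V q) r * (s - s')| ≤ 2 * N * ‖q‖ * |s - s'| := by
      rw [abs_mul]
      refine mul_le_mul_of_nonneg_right ?_ (abs_nonneg _)
      simp only [Matrix.mulVec, dotProduct, Fin.sum_univ_two]
      refine (abs_add_le _ _).trans ?_
      rw [abs_mul, abs_mul]
      calc _ ≤ N * ‖q‖ + N * ‖q‖ := add_le_add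
            (mul_le_mul (hmN r 0) (hq 0) (abs_nonneg _) hN.le)
            (mul_le_mul (hmN r 1) (hq 1) (abs_nonneg _) hN.le)
        _ = 2 * N * ‖q‖ := by ring
    constructor
    · have h1 : κ * ‖q‖ * |s - s'| ≤ |m.mulVec (V q) r * (s - s')| := by
        rw [abs_mul]; exact mul_le_mul_of_nonneg_right hr (abs_nonneg _)
      have h2 : |m.mulVec (V q) r * (s - s')| ≤ |Δ| + 2 * η * ‖q‖ * |s - s'| := by
        have : m.mulVec (V q) r * (s - s') = Δ -
          ((e r 0 (x, s) - e r 0 (x, s') - m r 0 * (s - s')) * V q 0 +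
          (e r 1 (x, s) - e r 1 (x, s') - m r 1 * (s - s')) * V q 1) := by rw [hΔe]; ring
        rw [this]
        exact (abs_sub _ _).trans (add_le_add le_rfl herr)
      have h3 : κ / 2 * ‖q‖ * |s - s'| = κ * ‖q‖ * |s - s'| - 2 * η * ‖q‖ * |s - s'| := by
        rw [hη]; ring
      rw [h3]; linarith
    · have h2 : |Δ| ≤ |m.mulVec (V q) r * (s - s')| + 2 * η * ‖q‖ * |s - s'| := by
        rw [hΔe]
        exact (abs_add_le _ _).trans (add_le_add le_rfl herr)
      have h3 : (2 * N + 2 * η) * ‖q‖ * |s - s'| = 2 * N * ‖q‖ * |s - s'| + 2 * η * ‖q‖ * |s - s'| := by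
        ring
      rw [h3]; linarith
  · intro ℓ hℓ hℓw x hx s hs j k
    have h5 : dist s s0 ≤ ℓ := by
      rw [Real.dist_eq, abs_of_nonneg (by linarith [hs.1])]; linarith [hs.2]
    have hb := hball (hdist x x0 s s0 (hx.trans hℓw) (by rw [dist_self]; exact hw1.le)
      ⟨hs.1, hs.2.trans (by linarith)⟩ ⟨le_rfl, by linarith⟩) j k
    simp only at hb
    have hn : ‖((x, s) : X × ℝ) - (x0, s0)‖ ≤ ℓ := by
      rw [← dist_eq_norm, Prod.dist_eq]
      exact max_le hx h5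
    have hLn : ‖L j k (((x, s) : X × ℝ) - (x0, s0))‖ ≤ ‖L j k‖ * ℓ :=
      ((L j k).le_opNorm _).trans (mul_le_mul_of_nonneg_left hn (norm_nonneg _))
    have h6 : |e j k (x, s) - e j k (x0, s0)| ≤ η * ℓ + ‖L j k‖ * ℓ := by
      have : e j k (x, s) - e j k (x0, s0) = (e j k (x, s) - e j k (x0, s0) -
        L j k (((x, s) : X × ℝ) - (x0, s0))) + L j k (((x, s) : X × ℝ) - (x0, s0)) := by ring
      rw [this]
      refine (abs_add_le _ _).trans (add_le_add ?_ ?_)
      · exact hb.trans (mul_le_mul_of_nonneg_left hn hη0.le)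
      · exact hLn
    have h7 : ‖L j k‖ + η ≤ C := by
      have a := norm_nonneg (L 0 0); have b := norm_nonneg (L 0 1)
      have c := norm_nonneg (L 1 0); have d := norm_nonneg (L 1 1)
      fin_cases j <;> fin_cases k <;> simp only [hC, Fin.mk_zero, Fin.mk_one, Fin.zero_eta, Fin.isValue] <;> linarith
    calc _ ≤ η * ℓ + ‖L j k‖ * ℓ := h6
      _ = (‖L j k‖ + η) * ℓ := by ring
      _ ≤ C * ℓ := mul_le_mul_of_nonneg_right h7 hℓ.le

/-- The same from continuous differentiability and the partial derivatives in the direction of `s`. -/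
theorem loc_of_contDiff {X : Type} [NormedAddCommGroup X] [NormedSpace ℝ X]
    (e : Fin 2 → Fin 2 → X × ℝ → ℝ)
    (x0 : X) (s0 : ℝ) (hL : ∀ j k, ContDiffAt ℝ 1 (e j k) (x0, s0))
    (m : Matrix (Fin 2) (Fin 2) ℝ) (hm : ∀ j k, HasDerivAt (fun s => e j k (x0, s)) (m j k) s0)
    (hdet : m.det ≠ 0) :
    ∃ κ M C w : ℝ, 0 < κ ∧ 0 ≤ M ∧ 0 ≤ C ∧ 0 < w ∧
      (∀ x, dist x x0 ≤ w → BL (fun s => Matrix.of fun j k => e j k (x, s)) s0 (s0 + w) κ M) ∧
      (∀ ℓ, 0 < ℓ → ℓ ≤ w → ∀ x, dist x x0 ≤ ℓ → ∀ s ∈ Icc s0 (s0 + ℓ), ∀ j k,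
        |e j k (x, s) - e j k (x0, s0)| ≤ C * ℓ) := by
  refine loc_of_strict e x0 s0 (fun j k => fderiv ℝ (e j k) (x0, s0))
    (fun j k => (hL j k).hasStrictFDerivAt one_ne_zero) m (fun j k => ?_) hdet
  have h1 : HasFDerivAt (e j k) (fderiv ℝ (e j k) (x0, s0)) (x0, s0) :=
    ((hL j k).differentiableAt one_ne_zero).hasFDerivAt
  have h2 : HasDerivAt (fun s : ℝ => ((x0, s) : X × ℝ)) ((0 : X), (1 : ℝ)) s0 :=
    (hasDerivAt_const s0 x0).prodMk (hasDerivAt_id s0)
  have h3 := h1.comp_hasDerivAt s0 h2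
  exact (hm j k).unique h3

/-- almost every scalar `h a` satisfies `D`, locally where `h' ≠ 0`. -/
theorem ae_scalar {h : ℝ → ℝ} {J : Set ℝ} (hJo : IsOpen J) (hJ : IsPreconnected J)
    (hh : AnalyticOnNhd ℝ h J) (hne : ∀ y, ¬ ∀ x ∈ J, h x = y) :
    ∀ᵐ a, a ∈ J → D (h a • (1 : Matrix (Fin 2) (Fin 2) ℝ)) := by
  have h1 := ae_deriv_nonzero hJo hJ hh hne
  have h2 : volume {a | a ∈ J ∧ deriv h a ≠ 0 ∧ ¬ D (h a • (1 : Matrix (Fin 2) (Fin 2) ℝ))} = 0 := by
    refine measure_null_of_locally_null _ fun x hx => ?_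
    obtain ⟨hxJ, hx1, _⟩ := hx
    set η : ℝ := |deriv h x| / 2 with hη
    have hη0 : 0 < η := by positivity
    have hs : HasStrictDerivAt h (deriv h x) x := (hh x hxJ).hasStrictDerivAt
    have hev := hs.isLittleO.def hη0
    obtain ⟨w0, hw0, hball⟩ := Metric.eventually_nhds_iff.1 hev
    set w : ℝ := min (w0 / 2) (1 / 2) with hw
    have hw1 : 0 < w := by positivity
    have hww : w < w0 := lt_of_le_of_lt (min_le_left _ _) (by linarith)
    have hw2 : w ≤ 1 / 2 := min_le_right _ _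
    have hBL : BL (fun a => h a • (1 : Matrix (Fin 2) (Fin 2) ℝ)) (x - w) (x + w) η (3 * η) := by
      intro q
      obtain ⟨r, hr⟩ := exists_coord (V q)
      rw [norm_V] at hr
      refine ⟨r, fun s hs s' hs' => ?_⟩
      have hd : dist ((s, s') : ℝ × ℝ) (x, x) < w0 := by
        rw [Prod.dist_eq]
        refine lt_of_le_of_lt (max_le ?_ ?_) hww
        · rw [Real.dist_eq, abs_le]; constructor <;> linarith [hs.1, hs.2]
        · rw [Real.dist_eq, abs_le]; constructor <;> linarith [hs'.1, hs'.2]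
      have hb := hball hd
      simp only [ContinuousLinearMap.toSpanSingleton_apply, smul_eq_mul, Real.norm_eq_abs] at hb
      simp only [Matrix.smul_mulVec, Matrix.one_mulVec, Pi.smul_apply, smul_eq_mul, ← sub_mul]
      rw [abs_mul, hr]
      have e1 : |(s - s') * deriv h x| = 2 * η * |s - s'| := by
        rw [abs_mul, hη]; ring
      have e2 : 2 * η * |s - s'| ≤ |h s - h s'| + η * |s - s'| := by
        rw [← e1]
        have : (s - s') * deriv h x = (h s - h s') - (h s - h s' - (s - s') * deriv h x) := by ring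
        rw [this]
        exact (abs_sub _ _).trans (add_le_add le_rfl hb)
      have e3 : |h s - h s'| ≤ 2 * η * |s - s'| + η * |s - s'| := by
        rw [← e1]
        have : h s - h s' = (s - s') * deriv h x + (h s - h s' - (s - s') * deriv h x) := by ring
        calc |h s - h s'| = |(s - s') * deriv h x + (h s - h s' - (s - s') * deriv h x)| := by
              rw [← this]
          _ ≤ _ := (abs_add_le _ _).trans (add_le_add le_rfl hb)
      have hq0 : 0 ≤ ‖q‖ := norm_nonneg q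
      constructor
      · calc η * ‖q‖ * |s - s'| = (η * |s - s'|) * ‖q‖ := by ring
          _ ≤ |h s - h s'| * ‖q‖ := mul_le_mul_of_nonneg_right (by linarith) hq0
      · calc |h s - h s'| * ‖q‖ ≤ (3 * η * |s - s'|) * ‖q‖ :=
              mul_le_mul_of_nonneg_right (by linarith) hq0
          _ = 3 * η * ‖q‖ * |s - s'| := by ring
    have hae := ae_D _ (by linarith) (by linarith) hη0 (by positivity) hBL
    refine ⟨{a | a ∈ Icc (x - w) (x + w) ∧ ¬ D (h a • (1 : Matrix (Fin 2) (Fin 2) ℝ))}, ?_, ?_⟩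
    · rw [mem_nhdsWithin_iff_eventually]
      filter_upwards [Icc_mem_nhds (show x - w < x by linarith) (show x < x + w by linarith)]
        with y hy hyS using ⟨hy, hyS.2.2⟩
    · rw [ae_iff] at hae
      refine measure_mono_null ?_ hae
      rintro a ⟨ha1, ha2⟩ hcon
      exact ha2 (hcon ha1)
  rw [measure_eq_zero_iff_ae_notMem] at h2
  filter_upwards [h1, h2] with a ha1 ha2 haJ
  by_contra hcon
  exact ha2 ⟨haJ, ha1 haJ, hcon⟩

end Pool.Agent.K3h64.LV
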