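import Mathlib

set_option autoImplicit false

/-!
# Measure estimates for simultaneous approximation along curves of 2 x 2 matrices
-/

namespace Pool.Agent.K3h64.LV

open MeasureTheory Set Filter

/-- Real vector of an integer vector. -/
def V {ι : Type} (q : ι → ℤ) : ι → ℝ := fun i => (q i : ℝ)

theorem norm_V {ι : Type} [Fintype ι] (q : ι → ℤ) : ‖V q‖ = ‖q‖ := by
  rw [Pi.norm_def, Pi.norm_def]
  congr 2

theorem one_le_norm {ι : Type} [Fintype ι] {q : ι → ℤ} (hq : q ≠ 0) : 1 ≤ ‖q‖ := by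
  obtain ⟨i, hi⟩ := Function.ne_iff.1 hq
  refine le_trans ?_ (norm_le_pi_norm q i)
  have h1 : 1 ≤ |q i| := Int.one_le_abs hi
  rw [Int.norm_eq_abs]
  exact_mod_cast h1

theorem vol_bad (h : ℝ → ℝ) {a b κ M δ : ℝ} (hab : a ≤ b) (hκ : 0 < κ) (hM : 0 ≤ M)
    (hδ0 : 0 ≤ δ) (hδ : δ ≤ 1 / 2)
    (h1 : ∀ x ∈ Icc a b, ∀ y ∈ Icc a b, κ * |x - y| ≤ |h x - h y|)
    (h2 : ∀ x ∈ Icc a b, ∀ y ∈ Icc a b, |h x - h y| ≤ M * |x - y|) :
    volume {x | x ∈ Icc a b ∧ ∃ k : ℤ, |h x - k| ≤ δ} ≤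
      ENNReal.ofReal ((2 * M * (b - a) + 2) * (2 * δ / κ)) := by
  set L : ℝ := h a - M * (b - a) - δ with hL
  set U : ℝ := h a + M * (b - a) + δ with hU
  have hba : 0 ≤ b - a := sub_nonneg.2 hab
  have hMb : 0 ≤ M * (b - a) := mul_nonneg hM hba
  have hsub : {x | x ∈ Icc a b ∧ ∃ k : ℤ, |h x - k| ≤ δ} ⊆
      ⋃ k ∈ Finset.Icc ⌈L⌉ ⌊U⌋, {x | x ∈ Icc a b ∧ |h x - (k : ℝ)| ≤ δ} := by
    rintro x ⟨hx, k, hk⟩
    have h3 := h2 x hx a ⟨le_refl _, hab⟩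
    have h4 : |x - a| ≤ b - a := by
      rw [abs_of_nonneg (by linarith [hx.1])]; linarith [hx.2]
    have h5 : |h x - h a| ≤ M * (b - a) := h3.trans (mul_le_mul_of_nonneg_left h4 hM)
    rw [abs_le] at h5 hk
    simp only [mem_iUnion, Finset.mem_Icc]
    refine ⟨k, ⟨Int.ceil_le.2 ?_, Int.le_floor.2 ?_⟩, hx, abs_le.2 hk⟩
    · rw [hL]; linarith [h5.1, h5.2, hk.1, hk.2]
    · rw [hU]; linarith [h5.1, h5.2, hk.1, hk.2]
  have hone : ∀ k : ℤ, volume {x | x ∈ Icc a b ∧ |h x - (k : ℝ)| ≤ δ} ≤ ENNReal.ofReal (2 * δ / κ) := by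
    intro k
    refine (Real.volume_le_diam _).trans ?_
    refine Metric.ediam_le ?_
    rintro x ⟨hx, hxk⟩ y ⟨hy, hyk⟩
    rw [edist_dist, Real.dist_eq]
    refine ENNReal.ofReal_le_ofReal ?_
    rw [le_div_iff₀ hκ, mul_comm]
    refine (h1 x hx y hy).trans ?_
    rw [abs_le] at hxk hyk
    rw [abs_le]
    constructor <;> linarith [hxk.1, hxk.2, hyk.1, hyk.2]
  have hcard : ((Finset.Icc ⌈L⌉ ⌊U⌋).card : ℝ) ≤ 2 * M * (b - a) + 2 := by
    rw [Int.card_Icc]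
    have h6 : ((⌊U⌋ + 1 - ⌈L⌉ : ℤ) : ℝ) ≤ U - L + 1 := by
      push_cast
      linarith [Int.floor_le U, Int.le_ceil L]
    have h7 : U - L + 1 ≤ 2 * M * (b - a) + 2 := by
      rw [hU, hL]; linarith
    have h8 : (0 : ℝ) ≤ 2 * M * (b - a) + 2 := by nlinarith
    have h9 : (((⌊U⌋ + 1 - ⌈L⌉).toNat : ℕ) : ℝ) = ((((⌊U⌋ + 1 - ⌈L⌉).toNat : ℕ) : ℤ) : ℝ) := by
      push_cast; rfl
    rw [h9, Int.toNat_eq_max]
    push_cast
    rw [max_le_iff]
    push_cast at h6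
    exact ⟨by linarith, h8⟩
  calc volume {x | x ∈ Icc a b ∧ ∃ k : ℤ, |h x - k| ≤ δ}
      ≤ volume (⋃ k ∈ Finset.Icc ⌈L⌉ ⌊U⌋, {x | x ∈ Icc a b ∧ |h x - (k : ℝ)| ≤ δ}) :=
        measure_mono hsub
    _ ≤ ∑ k ∈ Finset.Icc ⌈L⌉ ⌊U⌋, volume {x | x ∈ Icc a b ∧ |h x - (k : ℝ)| ≤ δ} :=
        measure_biUnion_finset_le _ _
    _ ≤ ∑ _k ∈ Finset.Icc ⌈L⌉ ⌊U⌋, ENNReal.ofReal (2 * δ / κ) :=
        Finset.sum_le_sum fun k _ => hone k
    _ = ENNReal.ofReal (((Finset.Icc ⌈L⌉ ⌊U⌋).card : ℝ) * (2 * δ / κ)) := by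
        rw [Finset.sum_const, nsmul_eq_mul, ENNReal.ofReal_mul (by positivity),
          ENNReal.ofReal_natCast]
    _ ≤ ENNReal.ofReal ((2 * M * (b - a) + 2) * (2 * δ / κ)) := by
        refine ENNReal.ofReal_le_ofReal (mul_le_mul_of_nonneg_right hcard (by positivity))

/-- `BL Φ a b κ M`: on `[a, b]` the map `s ↦ Φ s q` is bilipschitz in some coordinate, with
constants `κ ‖q‖` and `M ‖q‖`. -/
def BL (Φ : ℝ → Matrix (Fin 2) (Fin 2) ℝ) (a b κ M : ℝ) : Prop :=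
  ∀ q : Fin 2 → ℤ, ∃ r : Fin 2, ∀ s ∈ Icc a b, ∀ s' ∈ Icc a b,
    κ * ‖q‖ * |s - s'| ≤ |(Φ s).mulVec (V q) r - (Φ s').mulVec (V q) r| ∧
    |(Φ s).mulVec (V q) r - (Φ s').mulVec (V q) r| ≤ M * ‖q‖ * |s - s'|

/-- distance of `B q` from the integer vectors is at least `c`. -/
def Far (B : Matrix (Fin 2) (Fin 2) ℝ) (q : Fin 2 → ℤ) (c : ℝ) : Prop :=
  ∀ p : Fin 2 → ℤ, c ≤ ‖B.mulVec (V q) - V p‖

def D (B : Matrix (Fin 2) (Fin 2) ℝ) : Prop :=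
  ∃ c : ℝ, 0 < c ∧ ∀ q : Fin 2 → ℤ, q ≠ 0 → Far B q (c / ‖q‖ ^ 3)

def DE (B : Matrix (Fin 2) (Fin 2) ℝ) (c : ℝ) : Prop :=
  ∃ c' : ℝ, 0 < c' ∧ ∀ q : Fin 2 → ℤ, q ≠ 0 → Far B q (c / ‖q‖ ^ 10 + c' / ‖q‖ ^ 3)

theorem vol_far (Φ : ℝ → Matrix (Fin 2) (Fin 2) ℝ) {a b κ M δ : ℝ} (hab : a ≤ b) (hb : b ≤ a + 1)
    (hκ : 0 < κ) (hM : 0 ≤ M) (hδ0 : 0 ≤ δ) (hδ : δ ≤ 1 / 2) (hBL : BL Φ a b κ M) (q : Fin 2 → ℤ)
    (hq : q ≠ 0) :
    volume {s | s ∈ Icc a b ∧ ∃ p : Fin 2 → ℤ, ‖(Φ s).mulVec (V q) - V p‖ ≤ δ} ≤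
      ENNReal.ofReal ((4 * (M + 1) / κ) * δ) := by
  obtain ⟨r, hr⟩ := hBL q
  have hq1 := one_le_norm hq
  have hsub : {s | s ∈ Icc a b ∧ ∃ p : Fin 2 → ℤ, ‖(Φ s).mulVec (V q) - V p‖ ≤ δ} ⊆
      {s | s ∈ Icc a b ∧ ∃ k : ℤ, |(Φ s).mulVec (V q) r - k| ≤ δ} := by
    rintro s ⟨hs, p, hp⟩
    refine ⟨hs, p r, ?_⟩
    have := (norm_le_pi_norm ((Φ s).mulVec (V q) - V p) r).trans hp
    simpa [V, Real.norm_eq_abs] using this
  refine (measure_mono hsub).trans ?_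
  refine (vol_bad (fun s => (Φ s).mulVec (V q) r) (κ := κ * ‖q‖) (M := M * ‖q‖) hab (by positivity)
    (by positivity) hδ0 hδ (fun x hx y hy => (hr x hx y hy).1)
    (fun x hx y hy => (hr x hx y hy).2)).trans ?_
  refine ENNReal.ofReal_le_ofReal ?_
  have h1 : 2 * (M * ‖q‖) * (b - a) + 2 ≤ 2 * (M + 1) * ‖q‖ := by
    have : (M * ‖q‖) * (b - a) ≤ (M * ‖q‖) * 1 :=
      mul_le_mul_of_nonneg_left (by linarith) (by positivity)
    nlinarith
  calc (2 * (M * ‖q‖) * (b - a) + 2) * (2 * δ / (κ * ‖q‖))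
      ≤ (2 * (M + 1) * ‖q‖) * (2 * δ / (κ * ‖q‖)) :=
        mul_le_mul_of_nonneg_right h1 (by positivity)
    _ = (4 * (M + 1) / κ) * δ := by
        field_simp
        ring

theorem summable_cube : Summable fun q : Fin 2 → ℤ => 1 / ‖q‖ ^ 3 := by
  have h := EisensteinSeries.summable_one_div_norm_rpow (k := 3) (by norm_num)
  refine h.congr fun q => ?_
  rw [Real.rpow_neg (norm_nonneg _), one_div]
  norm_cast

/-- almost every matrix on a nondegenerate curve satisfies `D`. -/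
theorem ae_D (Φ : ℝ → Matrix (Fin 2) (Fin 2) ℝ) {a b κ M : ℝ} (hab : a ≤ b) (hb : b ≤ a + 1)
    (hκ : 0 < κ) (hM : 0 ≤ M) (hBL : BL Φ a b κ M) :
    ∀ᵐ s, s ∈ Icc a b → D (Φ s) := by
  set K : ℝ := 4 * (M + 1) / κ with hK
  have hK0 : 0 < K := by positivity
  -- for each q, almost surely positive distance
  have hpos : ∀ q : Fin 2 → ℤ, q ≠ 0 → ∀ᵐ s, s ∈ Icc a b → ∀ p : Fin 2 → ℤ,
      0 < ‖(Φ s).mulVec (V q) - V p‖ := by
    intro q hq
    have hz : volume {s | s ∈ Icc a b ∧ ∃ p : Fin 2 → ℤ, ‖(Φ s).mulVec (V q) - V p‖ ≤ 0} = 0 := by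
      have := vol_far Φ hab hb hκ hM (le_refl 0) (by norm_num) hBL q hq
      rw [mul_zero, ENNReal.ofReal_zero] at this
      exact le_antisymm this zero_le
    rw [measure_eq_zero_iff_ae_notMem] at hz
    filter_upwards [hz] with s hs hs1 p
    by_contra hcon
    exact hs ⟨hs1, p, not_lt.1 hcon⟩
  -- Borel-Cantelli
  set S : (Fin 2 → ℤ) → Set ℝ := fun q =>
    {s | 2 ≤ ‖q‖ ∧ s ∈ Icc a b ∧ ∃ p : Fin 2 → ℤ, ‖(Φ s).mulVec (V q) - V p‖ ≤ 1 / ‖q‖ ^ 3} with hS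
  have hsum : ∑' q, volume (S q) ≠ ⊤ := by
    have hle : ∀ q, volume (S q) ≤ ENNReal.ofReal (K * (1 / ‖q‖ ^ 3)) := by
      intro q
      by_cases h2 : 2 ≤ ‖q‖
      · have hq : q ≠ 0 := by
          rintro rfl
          rw [norm_zero] at h2
          linarith
        refine le_trans (measure_mono ?_) (vol_far Φ hab hb hκ hM (δ := 1 / ‖q‖ ^ 3)
          (by positivity) ?_ hBL q hq)
        · rintro s ⟨_, hs⟩; exact hs
        · have h8 : (8 : ℝ) ≤ ‖q‖ ^ 3 := by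
            calc (8 : ℝ) = 2 ^ 3 := by norm_num
              _ ≤ ‖q‖ ^ 3 := pow_le_pow_left₀ (by norm_num) h2 3
          exact one_div_le_one_div_of_le (by norm_num) (by linarith)
      · have : S q = ∅ := by
          ext s; simp only [hS, Set.mem_ofPred_eq, mem_empty_iff_false, iff_false]
          rintro ⟨h, _⟩; exact h2 h
        rw [this, measure_empty]
        exact zero_le
    refine ne_top_of_le_ne_top ?_ (ENNReal.tsum_le_tsum hle)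
    have hsm : Summable fun q : Fin 2 → ℤ => K * (1 / ‖q‖ ^ 3) := summable_cube.mul_left K
    rw [← ENNReal.ofReal_tsum_of_nonneg (fun q => by positivity) hsm]
    exact ENNReal.ofReal_ne_top
  have hfin := ae_finite_setOfPred_mem hsum
  have hpos' : ∀ᵐ s, ∀ q : Fin 2 → ℤ, q ≠ 0 → s ∈ Icc a b → ∀ p : Fin 2 → ℤ,
      0 < ‖(Φ s).mulVec (V q) - V p‖ := by
    rw [ae_all_iff]
    intro q
    by_cases hq : q = 0
    · exact Eventually.of_forall fun s h => absurd hq h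
    · filter_upwards [hpos q hq] with s hs _ using hs
  filter_upwards [hfin, hpos'] with s hs1 hs2 hs
  -- positive infimum for each q
  have hmin : ∀ q : Fin 2 → ℤ, q ≠ 0 → ∃ c : ℝ, 0 < c ∧ Far (Φ s) q (c / ‖q‖ ^ 3) := by
    intro q hq
    have hq1 := one_le_norm hq
    -- the distance to the nearest integer vector
    set v := (Φ s).mulVec (V q) with hv
    set p0 : Fin 2 → ℤ := fun i => round (v i) with hp0
    refine ⟨‖v - V p0‖ * ‖q‖ ^ 3, mul_pos (hs2 q hq hs p0) (by positivity), ?_⟩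
    intro p
    rw [mul_div_assoc, div_self (by positivity), mul_one]
    rw [pi_norm_le_iff_of_nonneg (norm_nonneg _)]
    intro i
    refine le_trans ?_ (norm_le_pi_norm _ i)
    simp only [Pi.sub_apply, V, Real.norm_eq_abs, hp0]
    exact round_le (v i) (p i)
  have hfinT : ∀ T : Finset (Fin 2 → ℤ), ∃ c : ℝ, 0 < c ∧ c ≤ 1 ∧ ∀ q ∈ T, q ≠ 0 →
      Far (Φ s) q (c / ‖q‖ ^ 3) := by
    intro T
    induction T using Finset.induction_on with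
    | empty => exact ⟨1, one_pos, le_refl _, fun q hq => absurd hq (Finset.notMem_empty _)⟩
    | insert q0 T _ ih =>
      obtain ⟨c, hc, hc1, h⟩ := ih
      by_cases hq0 : q0 = 0
      · refine ⟨c, hc, hc1, fun q hq hqn => ?_⟩
        rcases Finset.mem_insert.1 hq with rfl | hq
        · exact absurd hq0 hqn
        · exact h q hq hqn
      · obtain ⟨c0, hc0, h0⟩ := hmin q0 hq0
        refine ⟨min c c0, lt_min hc hc0, (min_le_left _ _).trans hc1, fun q hq hqn p => ?_⟩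
        rcases Finset.mem_insert.1 hq with rfl | hq
        · exact (div_le_div_of_nonneg_right (min_le_right _ _) (by positivity)).trans (h0 p)
        · exact (div_le_div_of_nonneg_right (min_le_left _ _) (by positivity)).trans (h q hq hqn p)
  have hfin1 : {q : Fin 2 → ℤ | s ∈ S q}.Finite := hs1
  have hball : {q : Fin 2 → ℤ | ‖q‖ < 2}.Finite := by
    have : {q : Fin 2 → ℤ | ‖q‖ < 2} = Metric.ball 0 2 := by
      ext q; simp [dist_eq_norm]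
    rw [this]
    exact (isCompact_closedBall (0 : Fin 2 → ℤ) 2).finite_of_discrete.subset
      Metric.ball_subset_closedBall
  obtain ⟨c, hc, hc1, h⟩ := hfinT (hfin1.toFinset ∪ hball.toFinset)
  refine ⟨c, hc, fun q hq p => ?_⟩
  by_cases hmem : q ∈ hfin1.toFinset ∪ hball.toFinset
  · exact h q hmem hq p
  · rw [Finset.mem_union, Set.Finite.mem_toFinset, Set.Finite.mem_toFinset] at hmem
    push Not at hmem
    obtain ⟨hm1, hm2⟩ := hmem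
    have h2 : 2 ≤ ‖q‖ := not_lt.1 hm2
    have h3 : ¬ ‖(Φ s).mulVec (V q) - V p‖ ≤ 1 / ‖q‖ ^ 3 := fun hcon => hm1 ⟨h2, hs, p, hcon⟩
    refine le_trans ?_ (not_le.1 h3).le
    exact div_le_div_of_nonneg_right hc1 (by positivity)

end Pool.Agent.K3h64.LV
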