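import Pool.Agent.K3h64.LV.Meas

set_option autoImplicit false

namespace Pool.Agent.K3h64.LV

open MeasureTheory Set Filter

theorem BL.mono {Φ : ℝ → Matrix (Fin 2) (Fin 2) ℝ} {a b a' b' κ M : ℝ} (h : BL Φ a b κ M)
    (ha : a ≤ a') (hb : b' ≤ b) : BL Φ a' b' κ M := by
  intro q
  obtain ⟨r, hr⟩ := h q
  exact ⟨r, fun s hs s' hs' => hr s ⟨ha.trans hs.1, hs.2.trans hb⟩ s' ⟨ha.trans hs'.1, hs'.2.trans hb⟩⟩

theorem norm_mulVec_sub_le (A B : Matrix (Fin 2) (Fin 2) ℝ) (q : Fin 2 → ℤ) {C : ℝ}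
    (h : ∀ i j, |A i j - B i j| ≤ C) : ‖A.mulVec (V q) - B.mulVec (V q)‖ ≤ 2 * C * ‖q‖ := by
  have hC : 0 ≤ C := (abs_nonneg _).trans (h 0 0)
  rw [← Matrix.sub_mulVec, pi_norm_le_iff_of_nonneg (by positivity)]
  intro i
  have hq : ∀ j, |V q j| ≤ ‖q‖ := fun j => by
    rw [← norm_V q, ← Real.norm_eq_abs]; exact norm_le_pi_norm (V q) j
  simp only [Matrix.mulVec, dotProduct, Fin.sum_univ_two, Matrix.sub_apply, Real.norm_eq_abs]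
  calc |(A i 0 - B i 0) * V q 0 + (A i 1 - B i 1) * V q 1|
      ≤ |(A i 0 - B i 0) * V q 0| + |(A i 1 - B i 1) * V q 1| := abs_add_le _ _
    _ = |A i 0 - B i 0| * |V q 0| + |A i 1 - B i 1| * |V q 1| := by rw [abs_mul, abs_mul]
    _ ≤ C * ‖q‖ + C * ‖q‖ := add_le_add
        (mul_le_mul (h i 0) (hq 0) (abs_nonneg _) hC) (mul_le_mul (h i 1) (hq 1) (abs_nonneg _) hC)
    _ = 2 * C * ‖q‖ := by ring

theorem pert {c0 c' κ M C ε : ℝ} (hc0 : 0 < c0) (hc01 : c0 ≤ 1) (hc' : 0 < c') (hκ : 0 < κ)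
    (hM : 0 ≤ M) (hC : 0 ≤ C) (hε : 0 < ε) :
    ∀ᶠ Q : ℕ in atTop, ∀ (a : ℝ) (Φ : ℝ → Matrix (Fin 2) (Fin 2) ℝ) (B0 : Matrix (Fin 2) (Fin 2) ℝ),
      BL Φ a (a + 1 / (Q : ℝ) ^ 5) κ M →
      (∀ s ∈ Icc a (a + 1 / (Q : ℝ) ^ 5), ∀ i j, |Φ s i j - B0 i j| ≤ C * (1 / (Q : ℝ) ^ 5)) →
      (∀ q : Fin 2 → ℤ, q ≠ 0 → Far B0 q (c0 / ‖q‖ ^ 10 + c' / ‖q‖ ^ 3)) →
      volume {s | s ∈ Icc a (a + 1 / (Q : ℝ) ^ 5) ∧ ¬ ∀ q : Fin 2 → ℤ, q ≠ 0 →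
        (Far (Φ s) q (c0 / ‖q‖ ^ 10 + (c' / 2) / ‖q‖ ^ 3) ∨ Far (Φ s) q (2 * c0 / ‖q‖ ^ 10))} ≤
        ENNReal.ofReal (ε * (1 / (Q : ℝ) ^ 5)) := by
  set K : ℝ := 4 * (M + 1) / κ with hK
  have hK0 : 0 < K := by positivity
  set Z : ℝ := ∑' q : Fin 2 → ℤ, 1 / ‖q‖ ^ 3 with hZ
  have hZ0 : 0 ≤ Z := tsum_nonneg fun q => by positivity
  have e1 : ∀ᶠ Q : ℕ in atTop, 4 * C / c' ≤ (Q : ℝ) :=
    (tendsto_natCast_atTop_atTop (R := ℝ)).eventually_ge_atTop _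
  have e2 : ∀ᶠ Q : ℕ in atTop, 2 * K * Z / ε ≤ (Q : ℝ) :=
    (tendsto_natCast_atTop_atTop (R := ℝ)).eventually_ge_atTop _
  filter_upwards [e1, e2, eventually_ge_atTop 2] with Q hQ1 hQ2 hQ3 a Φ B0 hBL hnear hfar
  have hQ : (2 : ℝ) ≤ Q := by exact_mod_cast hQ3
  have hQ0 : (0 : ℝ) < Q := by linarith
  have hℓ1 : 1 / (Q : ℝ) ^ 5 ≤ 1 := by
    rw [div_le_one (by positivity)]
    exact one_le_pow₀ (by linarith)
  have hsub : {s | s ∈ Icc a (a + 1 / (Q : ℝ) ^ 5) ∧ ¬ ∀ q : Fin 2 → ℤ, q ≠ 0 →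
      (Far (Φ s) q (c0 / ‖q‖ ^ 10 + (c' / 2) / ‖q‖ ^ 3) ∨ Far (Φ s) q (2 * c0 / ‖q‖ ^ 10))} ⊆
      ⋃ q : Fin 2 → ℤ, {s | (Q : ℝ) < ‖q‖ ∧ s ∈ Icc a (a + 1 / (Q : ℝ) ^ 5) ∧
        ∃ p : Fin 2 → ℤ, ‖(Φ s).mulVec (V q) - V p‖ ≤ 2 * c0 / ‖q‖ ^ 10} := by
    rintro s ⟨hs, hns⟩
    push Not at hns
    obtain ⟨q, hq, hn1, hn2⟩ := hns
    have hq1 := one_le_norm hq
    rw [mem_iUnion]
    refine ⟨q, ?_, hs, ?_⟩
    · by_contra hle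
      rw [not_lt] at hle
      refine hn1 fun p => ?_
      have h1 := hfar q hq p
      have h2 := norm_mulVec_sub_le (Φ s) B0 q (hnear s hs)
      have h3 : ‖B0.mulVec (V q) - V p‖ ≤ ‖(Φ s).mulVec (V q) - V p‖ +
          ‖(Φ s).mulVec (V q) - B0.mulVec (V q)‖ := by
        have : B0.mulVec (V q) - V p = ((Φ s).mulVec (V q) - V p) -
          ((Φ s).mulVec (V q) - B0.mulVec (V q)) := by abel
        rw [this]; exact norm_sub_le _ _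
      have h4 : 2 * (C * (1 / (Q : ℝ) ^ 5)) * ‖q‖ ≤ (c' / 2) / ‖q‖ ^ 3 := by
        rw [le_div_iff₀ (by positivity)]
        have h5 : 2 * (C * (1 / (Q : ℝ) ^ 5)) * ‖q‖ * ‖q‖ ^ 3 = 2 * C * (‖q‖ ^ 4 / (Q : ℝ) ^ 5) := by
          ring
        rw [h5]
        have h6 : ‖q‖ ^ 4 / (Q : ℝ) ^ 5 ≤ 1 / Q := by
          rw [div_le_div_iff₀ (by positivity) hQ0]
          calc ‖q‖ ^ 4 * (Q : ℝ) ≤ (Q : ℝ) ^ 4 * Q :=
                mul_le_mul_of_nonneg_right (pow_le_pow_left₀ (norm_nonneg _) hle 4) hQ0.le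
            _ = 1 * (Q : ℝ) ^ 5 := by ring
        calc 2 * C * (‖q‖ ^ 4 / (Q : ℝ) ^ 5) ≤ 2 * C * (1 / Q) :=
              mul_le_mul_of_nonneg_left h6 (by positivity)
          _ ≤ c' / 2 := by
              rw [mul_one_div, div_le_div_iff₀ hQ0 (by norm_num)]
              rw [div_le_iff₀ hc'] at hQ1
              linarith
      have h7 : c' / ‖q‖ ^ 3 = (c' / 2) / ‖q‖ ^ 3 + (c' / 2) / ‖q‖ ^ 3 := by
        rw [← add_div]; congr 1; ring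
      linarith
    · unfold Far at hn2
      push Not at hn2
      obtain ⟨p, hp⟩ := hn2
      exact ⟨p, hp.le⟩
  have hone : ∀ q : Fin 2 → ℤ, volume {s | (Q : ℝ) < ‖q‖ ∧ s ∈ Icc a (a + 1 / (Q : ℝ) ^ 5) ∧
        ∃ p : Fin 2 → ℤ, ‖(Φ s).mulVec (V q) - V p‖ ≤ 2 * c0 / ‖q‖ ^ 10} ≤
      ENNReal.ofReal (2 * K / (Q : ℝ) ^ 7 * (1 / ‖q‖ ^ 3)) := by
    intro q
    by_cases hQq : (Q : ℝ) < ‖q‖
    · have hq : q ≠ 0 := by
        rintro rfl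
        rw [norm_zero] at hQq
        linarith
      have hq2 : (2 : ℝ) ≤ ‖q‖ := by linarith
      have hq0 : 0 < ‖q‖ := by linarith
      have h10 : (1024 : ℝ) ≤ ‖q‖ ^ 10 := by
        calc (1024 : ℝ) = 2 ^ 10 := by norm_num
          _ ≤ ‖q‖ ^ 10 := pow_le_pow_left₀ (by norm_num) hq2 10
      have hδ : 2 * c0 / ‖q‖ ^ 10 ≤ 1 / 2 := by
        rw [div_le_div_iff₀ (by positivity) (by norm_num)]
        linarith
      refine (measure_mono ?_).trans ((vol_far Φ (by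
        have : 0 ≤ 1 / (Q : ℝ) ^ 5 := by positivity
        linarith) (by linarith) hκ hM (δ := 2 * c0 / ‖q‖ ^ 10) (by positivity) hδ hBL q hq).trans ?_)
      · rintro s ⟨_, hs⟩; exact hs
      · refine ENNReal.ofReal_le_ofReal ?_
        have h1 : 1 / ‖q‖ ^ 10 ≤ 1 / (Q : ℝ) ^ 7 * (1 / ‖q‖ ^ 3) := by
          rw [one_div_mul_one_div]
          refine one_div_le_one_div_of_le (by positivity) ?_
          calc (Q : ℝ) ^ 7 * ‖q‖ ^ 3 ≤ ‖q‖ ^ 7 * ‖q‖ ^ 3 :=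
                mul_le_mul_of_nonneg_right (pow_le_pow_left₀ hQ0.le hQq.le 7) (by positivity)
            _ = ‖q‖ ^ 10 := by ring
        calc 4 * (M + 1) / κ * (2 * c0 / ‖q‖ ^ 10) = K * (2 * c0) * (1 / ‖q‖ ^ 10) := by
              rw [hK]; ring
          _ ≤ K * (2 * c0) * (1 / (Q : ℝ) ^ 7 * (1 / ‖q‖ ^ 3)) :=
              mul_le_mul_of_nonneg_left h1 (by positivity)
          _ ≤ K * 2 * (1 / (Q : ℝ) ^ 7 * (1 / ‖q‖ ^ 3)) := by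
              refine mul_le_mul_of_nonneg_right ?_ (by positivity)
              refine mul_le_mul_of_nonneg_left ?_ hK0.le
              linarith
          _ = 2 * K / (Q : ℝ) ^ 7 * (1 / ‖q‖ ^ 3) := by ring
    · have : {s | (Q : ℝ) < ‖q‖ ∧ s ∈ Icc a (a + 1 / (Q : ℝ) ^ 5) ∧
        ∃ p : Fin 2 → ℤ, ‖(Φ s).mulVec (V q) - V p‖ ≤ 2 * c0 / ‖q‖ ^ 10} = ∅ := by
        ext s
        simp only [Set.mem_ofPred_eq, mem_empty_iff_false, iff_false]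
        rintro ⟨h, _⟩; exact hQq h
      rw [this, measure_empty]
      exact zero_le
  have hsm : Summable fun q : Fin 2 → ℤ => 2 * K / (Q : ℝ) ^ 7 * (1 / ‖q‖ ^ 3) :=
    summable_cube.mul_left _
  calc volume _ ≤ volume (⋃ q : Fin 2 → ℤ, {s | (Q : ℝ) < ‖q‖ ∧ s ∈ Icc a (a + 1 / (Q : ℝ) ^ 5) ∧
        ∃ p : Fin 2 → ℤ, ‖(Φ s).mulVec (V q) - V p‖ ≤ 2 * c0 / ‖q‖ ^ 10}) := measure_mono hsub
    _ ≤ ∑' q : Fin 2 → ℤ, volume {s | (Q : ℝ) < ‖q‖ ∧ s ∈ Icc a (a + 1 / (Q : ℝ) ^ 5) ∧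
        ∃ p : Fin 2 → ℤ, ‖(Φ s).mulVec (V q) - V p‖ ≤ 2 * c0 / ‖q‖ ^ 10} := measure_iUnion_le _
    _ ≤ ∑' q : Fin 2 → ℤ, ENNReal.ofReal (2 * K / (Q : ℝ) ^ 7 * (1 / ‖q‖ ^ 3)) :=
        ENNReal.tsum_le_tsum hone
    _ = ENNReal.ofReal (2 * K / (Q : ℝ) ^ 7 * Z) := by
        rw [← ENNReal.ofReal_tsum_of_nonneg (fun q => by positivity) hsm, tsum_mul_left]
    _ ≤ ENNReal.ofReal (ε * (1 / (Q : ℝ) ^ 5)) := by
        refine ENNReal.ofReal_le_ofReal ?_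
        have h1 : 2 * K * Z ≤ ε * (Q : ℝ) ^ 2 := by
          rw [div_le_iff₀ hε] at hQ2
          have hQQ : (Q : ℝ) ≤ (Q : ℝ) ^ 2 := by nlinarith
          calc 2 * K * Z ≤ (Q : ℝ) * ε := hQ2
            _ = ε * (Q : ℝ) := mul_comm _ _
            _ ≤ ε * (Q : ℝ) ^ 2 := mul_le_mul_of_nonneg_left hQQ hε.le
        calc 2 * K / (Q : ℝ) ^ 7 * Z = 2 * K * Z / (Q : ℝ) ^ 7 := by ring
          _ ≤ ε * (Q : ℝ) ^ 2 / (Q : ℝ) ^ 7 := div_le_div_of_nonneg_right h1 (by positivity)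
          _ = ε * (1 / (Q : ℝ) ^ 5) := by
              field_simp

theorem DE_of {B : Matrix (Fin 2) (Fin 2) ℝ} {c0 c' : ℝ} (hc' : 0 < c') (hD : D B)
    (h : ∀ q : Fin 2 → ℤ, q ≠ 0 →
      (Far B q (c0 / ‖q‖ ^ 10 + (c' / 2) / ‖q‖ ^ 3) ∨ Far B q (2 * c0 / ‖q‖ ^ 10))) : DE B c0 := by
  obtain ⟨d, hd, hD⟩ := hD
  refine ⟨min (c' / 2) (d / 2), lt_min (by linarith) (by linarith), fun q hq p => ?_⟩
  have hq1 := one_le_norm hq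
  rcases h q hq with h1 | h1
  · refine le_trans ?_ (h1 p)
    have : min (c' / 2) (d / 2) / ‖q‖ ^ 3 ≤ (c' / 2) / ‖q‖ ^ 3 :=
      div_le_div_of_nonneg_right (min_le_left _ _) (by positivity)
    linarith
  · have h2 := h1 p
    have h3 := hD q hq p
    have : min (c' / 2) (d / 2) / ‖q‖ ^ 3 ≤ (d / 2) / ‖q‖ ^ 3 :=
      div_le_div_of_nonneg_right (min_le_right _ _) (by positivity)
    have h4 : 2 * c0 / ‖q‖ ^ 10 = 2 * (c0 / ‖q‖ ^ 10) := by ring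
    have h5 : d / 2 / ‖q‖ ^ 3 = (d / ‖q‖ ^ 3) / 2 := by ring
    rw [h5] at this
    rw [h4] at h2
    linarith

theorem step {X : Type} [PseudoMetricSpace X] (x0 : X) (s0 : ℝ) (S : Finset ℕ)
    (Φ : ℕ → X → ℝ → Matrix (Fin 2) (Fin 2) ℝ) (c : ℕ → ℝ) (hc : ∀ i ∈ S, 0 < c i ∧ c i ≤ 1)
    (hDE : ∀ i ∈ S, DE (Φ i x0 s0) (c i))
    (hloc : ∀ i ∈ S, ∃ κ M C w : ℝ, 0 < κ ∧ 0 ≤ M ∧ 0 ≤ C ∧ 0 < w ∧
      (∀ x, dist x x0 ≤ w → BL (Φ i x) s0 (s0 + w) κ M) ∧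
      (∀ ℓ, 0 < ℓ → ℓ ≤ w → ∀ x, dist x x0 ≤ ℓ → ∀ s ∈ Icc s0 (s0 + ℓ), ∀ j k,
        |Φ i x s j k - Φ i x0 s0 j k| ≤ C * ℓ))
    (w' : ℝ) (hw' : 0 < w') :
    ∃ ℓ : ℝ, 0 < ℓ ∧ ℓ < w' ∧ ∀ x, dist x x0 ≤ ℓ → ∀ Z : Set ℝ, volume Z = 0 →
      ∃ s ∈ Icc s0 (s0 + ℓ), s ∉ Z ∧ ∀ i ∈ S, DE (Φ i x s) (c i) := by
  choose! κ M C w hκ hM hC hw hBL hnear using hloc
  choose! c' hc' hfar using hDE
  set ε : ℝ := 1 / (2 * ((S.card : ℝ) + 1)) with hε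
  have hε0 : 0 < ε := by positivity
  have hlim : Tendsto (fun Q : ℕ => 1 / (Q : ℝ) ^ 5) atTop (nhds 0) := by
    have h1 : Tendsto (fun Q : ℕ => (1 / (Q : ℝ)) ^ 5) atTop (nhds (0 ^ 5)) :=
      tendsto_one_div_atTop_nhds_zero_nat.pow 5
    simpa using h1
  have e1 : ∀ᶠ Q : ℕ in atTop, 1 / (Q : ℝ) ^ 5 < w' := hlim.eventually_lt_const hw'
  have e1' : ∀ᶠ Q : ℕ in atTop, ∀ i ∈ S, 1 / (Q : ℝ) ^ 5 < w i := by
    rw [Filter.eventually_all_finset]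
    exact fun i hi => hlim.eventually_lt_const (hw i hi)
  have e2 := (Filter.eventually_all_finset (l := (atTop : Filter ℕ)) S).2
    fun i hi => pert (hc i hi).1 (hc i hi).2 (hc' i hi) (hκ i hi) (hM i hi) (hC i hi) hε0
  obtain ⟨Q, hQw, hQwi, hQ, hQ1⟩ := (e1.and (e1'.and (e2.and (eventually_ge_atTop 1)))).exists
  have hQ0 : (0 : ℝ) < Q := by exact_mod_cast hQ1
  set ℓ : ℝ := 1 / (Q : ℝ) ^ 5 with hℓ
  have hℓ0 : 0 < ℓ := by positivity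
  have hℓ1 : ℓ ≤ 1 := by
    rw [hℓ, div_le_one (by positivity)]
    exact one_le_pow₀ (by exact_mod_cast hQ1)
  refine ⟨ℓ, hℓ0, hQw, fun x hx Z hZ => ?_⟩
  -- bad sets
  set Bad : ℕ → Set ℝ := fun i => {s | s ∈ Icc s0 (s0 + ℓ) ∧ ¬ ∀ q : Fin 2 → ℤ, q ≠ 0 →
        (Far (Φ i x s) q (c i / ‖q‖ ^ 10 + (c' i / 2) / ‖q‖ ^ 3) ∨
          Far (Φ i x s) q (2 * c i / ‖q‖ ^ 10))} with hBad
  set Bad2 : ℕ → Set ℝ := fun i => {s | ¬ (s ∈ Icc s0 (s0 + ℓ) → D (Φ i x s))} with hBad2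
  have hBLi : ∀ i ∈ S, BL (Φ i x) s0 (s0 + ℓ) (κ i) (M i) := fun i hi =>
    (hBL i hi x (hx.trans (hQwi i hi).le)).mono le_rfl (by linarith [hQwi i hi])
  have hb1 : ∀ i ∈ S, volume (Bad i) ≤ ENNReal.ofReal (ε * ℓ) := fun i hi =>
    hQ i hi s0 (Φ i x) (Φ i x0 s0) (hBLi i hi)
      (hnear i hi ℓ hℓ0 (hQwi i hi).le x hx) (hfar i hi)
  have hb2 : ∀ i ∈ S, volume (Bad2 i) = 0 := fun i hi =>
    ae_iff.1 (ae_D (Φ i x) (by linarith) (by linarith) (hκ i hi) (hM i hi) (hBLi i hi))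
  have hvol : volume (Z ∪ ((⋃ i ∈ S, Bad i) ∪ ⋃ i ∈ S, Bad2 i)) < volume (Icc s0 (s0 + ℓ)) := by
    have h1 : volume (⋃ i ∈ S, Bad i) ≤ ENNReal.ofReal (ℓ / 2) := by
      calc volume (⋃ i ∈ S, Bad i) ≤ ∑ i ∈ S, volume (Bad i) := measure_biUnion_finset_le _ _
        _ ≤ ∑ _i ∈ S, ENNReal.ofReal (ε * ℓ) := Finset.sum_le_sum hb1
        _ = ENNReal.ofReal ((S.card : ℝ) * (ε * ℓ)) := by
            rw [Finset.sum_const, nsmul_eq_mul,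
              ENNReal.ofReal_mul (p := (S.card : ℝ)) (by positivity), ENNReal.ofReal_natCast]
        _ ≤ ENNReal.ofReal (ℓ / 2) := by
            refine ENNReal.ofReal_le_ofReal ?_
            have h2 : (S.card : ℝ) * ε ≤ 1 / 2 := by
              rw [hε, mul_one_div, div_le_div_iff₀ (by positivity) (by norm_num)]
              linarith
            calc (S.card : ℝ) * (ε * ℓ) = ((S.card : ℝ) * ε) * ℓ := by ring
              _ ≤ (1 / 2) * ℓ := mul_le_mul_of_nonneg_right h2 hℓ0.le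
              _ = ℓ / 2 := by ring
    have h2 : volume (⋃ i ∈ S, Bad2 i) = 0 := by
      refine le_antisymm ((measure_biUnion_finset_le _ _).trans ?_) zero_le
      exact (Finset.sum_eq_zero hb2).le
    calc volume (Z ∪ ((⋃ i ∈ S, Bad i) ∪ ⋃ i ∈ S, Bad2 i))
        ≤ volume Z + (volume (⋃ i ∈ S, Bad i) + volume (⋃ i ∈ S, Bad2 i)) :=
          (measure_union_le _ _).trans (add_le_add le_rfl (measure_union_le _ _))
      _ ≤ ENNReal.ofReal (ℓ / 2) := by rw [hZ, h2, zero_add, add_zero]; exact h1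
      _ < ENNReal.ofReal ℓ := (ENNReal.ofReal_lt_ofReal_iff hℓ0).2 (by linarith)
      _ = volume (Icc s0 (s0 + ℓ)) := by rw [Real.volume_Icc]; congr 1; ring
  obtain ⟨s, hs, hsn⟩ : ∃ s ∈ Icc s0 (s0 + ℓ), s ∉ Z ∪ ((⋃ i ∈ S, Bad i) ∪ ⋃ i ∈ S, Bad2 i) := by
    by_contra hcon
    push Not at hcon
    exact absurd (measure_mono (μ := volume) hcon) (not_le.2 hvol)
  simp only [mem_union, mem_iUnion, not_or, not_exists] at hsn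
  refine ⟨s, hs, hsn.1, fun i hi => ?_⟩
  have h3 := hsn.2.1 i hi
  have h4 := hsn.2.2 i hi
  simp only [hBad, hBad2, Set.mem_ofPred_eq, not_and, not_not] at h3 h4
  exact DE_of (hc' i hi) (h4 hs) (h3 hs)

end Pool.Agent.K3h64.LV
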