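import Pool.Agent.K3h64.LV.Block

set_option autoImplicit false

namespace Pool.Agent.K3h64.LV

open Set Filter Topology
open scoped ENNReal NNReal

/-- Taylor coefficient at `0` -/
noncomputable def cf (f : ℝ → ℝ) (j : ℕ) : ℝ := iteratedDeriv j f 0 / j.factorial

theorem hasSum_taylor {h : ℝ → ℝ} {I : Set ℝ} (h0 : (0 : ℝ) ∈ I) (hh : AnalyticOnNhd ℝ h I)
    {r : ℝ} (hr : 0 < r) (hsum : ∀ x, |x| < r → Summable fun j => cf h j * x ^ j)
    {ρ : ℝ} (hρ : 0 < ρ) (hρr : ρ ≤ r) (hρI : Ioo (-ρ) ρ ⊆ I) {x : ℝ} (hx : x ∈ Ioo (-ρ) ρ) :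
    HasSum (fun j => cf h j * x ^ j) (h x) := by
  set p : FormalMultilinearSeries ℝ ℝ ℝ := FormalMultilinearSeries.ofScalars ℝ (cf h) with hp
  have hps : HasFPowerSeriesAt h p 0 := (hh 0 h0).hasFPowerSeriesAt
  have hrad : ENNReal.ofReal r ≤ p.radius := by
    refine ENNReal.le_of_forall_nnreal_lt fun r' hr' => ?_
    have hr'' : (r' : ℝ) < r := by
      have := (ENNReal.lt_ofReal_iff_toReal_lt (by simp)).1 hr'
      simpa using this
    refine p.le_radius_of_summable_norm ?_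
    have h1 := (hsum r' (by rw [abs_of_nonneg (NNReal.coe_nonneg r')]; exact hr'')).norm
    refine h1.congr fun n => ?_
    rw [norm_mul, norm_pow, Real.norm_of_nonneg (NNReal.coe_nonneg r'), hp,
      FormalMultilinearSeries.ofScalars_norm]
  have hpos : 0 < p.radius := lt_of_lt_of_le (ENNReal.ofReal_pos.2 hr) hrad
  have hball := p.hasFPowerSeriesOnBall hpos
  have hmem : ∀ y ∈ Ioo (-ρ) ρ, y ∈ Metric.eball (0 : ℝ) p.radius := by
    intro y hy
    rw [Metric.mem_eball, edist_dist, Real.dist_eq, sub_zero]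
    refine lt_of_lt_of_le ?_ hrad
    exact (ENNReal.ofReal_lt_ofReal_iff hr).2 (lt_of_lt_of_le (abs_lt.2 hy) hρr)
  have hsa : AnalyticOnNhd ℝ p.sum (Ioo (-ρ) ρ) := fun y hy => hball.analyticOnNhd y (hmem y hy)
  have hev : h =ᶠ[𝓝 0] p.sum := by
    obtain ⟨r0, hr0⟩ := hps
    filter_upwards [Metric.eball_mem_nhds (0 : ℝ) hr0.r_pos] with y hy
    have := hr0.sum hy
    rwa [zero_add] at this
  have heq : EqOn h p.sum (Ioo (-ρ) ρ) :=
    (hh.mono hρI).eqOn_of_preconnected_of_eventuallyEq hsa isPreconnected_Ioo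
      (show (0 : ℝ) ∈ Ioo (-ρ) ρ from ⟨by linarith, hρ⟩) hev
  rw [heq hx]
  have h2 := p.hasSum (hmem x hx)
  have h3 : (fun n => p n fun _ => x) = fun j => cf h j * x ^ j := by
    ext n
    rw [hp, FormalMultilinearSeries.ofScalars_apply_eq, smul_eq_mul]
  rw [h3] at h2
  exact h2

theorem eqOn_ext {u : ℝ → ℝ} {I : Set ℝ} (hIc : IsPreconnected I)
    (hu : AnalyticOnNhd ℝ u I) {ρ : ℝ} (hρ : 0 < ρ) (hρI : Ioo (-ρ) ρ ⊆ I)
    (h : ∀ x ∈ Ioo (-ρ) ρ, u x = 0) : ∀ x ∈ I, u x = 0 := by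
  have h0 : (0 : ℝ) ∈ Ioo (-ρ) ρ := ⟨by linarith, hρ⟩
  have hev : u =ᶠ[𝓝 0] 0 := by
    filter_upwards [isOpen_Ioo.mem_nhds h0] with y hy using h y hy
  exact hu.eqOn_zero_of_preconnected_of_eventuallyEq_zero hIc (hρI h0) hev

/-- condition (i) of the problem: `g` is not a Moebius function -/
def NotMoebius (I : Set ℝ) (g : ℝ → ℝ) : Prop :=
  ∀ a b c d : ℝ, (c ≠ 0 ∨ d ≠ 0) → ¬ ∀ x ∈ I, c * x + d ≠ 0 ∧ g x = (a * x + b) / (c * x + d)

/-- condition (ii) of the problem: `f` is not a Moebius function of `g` -/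
def NotMoebiusOf (I : Set ℝ) (f g : ℝ → ℝ) : Prop :=
  ∀ a b c d : ℝ, (c ≠ 0 ∨ d ≠ 0) →
    ¬ ∀ x ∈ I, c * g x + d ≠ 0 ∧ f x = (a * g x + b) / (c * g x + d)

theorem NM_of {f g : ℝ → ℝ} {I : Set ℝ} (hIc : IsPreconnected I)
    (hf : AnalyticOnNhd ℝ f I) (hg : AnalyticOnNhd ℝ g I) {ρ : ℝ} (hρ : 0 < ρ)
    (hρI : Ioo (-ρ) ρ ⊆ I) (h1 : NotMoebius I g) (h2 : NotMoebiusOf I f g) :
    NM (Ioo (-ρ) ρ) f g := by
  intro a b c d hcd hrel
  have c1 : ∀ c : ℝ, AnalyticOnNhd ℝ (fun _ : ℝ => c) I := fun c => analyticOnNhd_const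
  have hrelI : ∀ x ∈ I, (c * g x + d) * f x - (a * g x + b) = 0 := by
    refine eqOn_ext hIc (u := fun x => (c * g x + d) * f x - (a * g x + b))
      (((((c1 c).mul hg).add (c1 d)).mul hf).sub (((c1 a).mul hg).add (c1 b))) hρ hρI ?_
    intro x hx
    rw [hrel x hx, sub_self]
  by_cases hne : ∀ x ∈ I, c * g x + d ≠ 0
  · refine h2 a b c d hcd fun x hx => ⟨hne x hx, ?_⟩
    rw [eq_div_iff (hne x hx)]
    linarith [hrelI x hx]
  · push Not at hne
    obtain ⟨x0, hx0, hx0n⟩ := hne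
    have hc : c ≠ 0 := by
      rintro rfl
      rw [zero_mul, zero_add] at hx0n
      rcases hcd with h | h
      · exact h rfl
      · exact h hx0n
    have h3 := hrelI x0 hx0
    rw [hx0n, zero_mul, zero_sub, neg_eq_zero] at h3
    have hprod : ∀ x ∈ I, (c * g x + d) * (f x - a / c) = 0 := by
      intro x hx
      have h4 := hrelI x hx
      have h5 : c * b = a * d := by linear_combination c * h3 - a * hx0n
      field_simp
      linear_combination c * h4 + h5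
    rcases ((((c1 c).mul hg).add (c1 d))).eq_zero_or_eq_zero_of_mul_eq_zero
      (hf.sub (c1 (a / c))) hprod hIc with h | h
    · refine h1 0 (-d / c) 0 1 (Or.inr one_ne_zero) fun x hx => ⟨by simp, ?_⟩
      have := h x hx
      simp only [Pi.add_apply] at this
      field_simp
      linarith
    · refine h2 0 (a / c) 0 1 (Or.inr one_ne_zero) fun x hx => ⟨by simp, ?_⟩
      have := h x hx
      simp only [Pi.sub_apply] at this
      simp only [zero_mul, zero_add, div_one]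
      linarith

theorem NM_id {g : ℝ → ℝ} {I : Set ℝ} (hIc : IsPreconnected I)
    (hg : AnalyticOnNhd ℝ g I) {ρ : ℝ} (hρ : 0 < ρ)
    (hρI : Ioo (-ρ) ρ ⊆ I) (h1 : NotMoebius I g) :
    NM (Ioo (-ρ) ρ) id g := by
  intro a b c d hcd hrel
  have c1 : ∀ c : ℝ, AnalyticOnNhd ℝ (fun _ : ℝ => c) I := fun c => analyticOnNhd_const
  have hid : AnalyticOnNhd ℝ (fun x : ℝ => x) I := analyticOnNhd_id
  have hrelI : ∀ x ∈ I, (c * x + (-a)) * g x - ((-d) * x + b) = 0 := by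
    refine eqOn_ext hIc (u := fun x => (c * x + (-a)) * g x - ((-d) * x + b))
      (((((c1 c).mul hid).add (c1 (-a))).mul hg).sub (((c1 (-d)).mul hid).add (c1 b))) hρ hρI ?_
    intro x hx
    have := hrel x hx
    simp only [id] at this
    linear_combination this
  by_cases hca : c = 0 ∧ a = 0
  · obtain ⟨rfl, rfl⟩ := hca
    have hd : d ≠ 0 := by
      rcases hcd with h | h
      · exact absurd rfl h
      · exact h
    have e0 := hrelI 0 (hρI ⟨by linarith, hρ⟩)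
    have e1 := hrelI (ρ / 2) (hρI ⟨by linarith, by linarith⟩)
    have : d * (ρ / 2) = 0 := by linear_combination e1 - e0
    rcases mul_eq_zero.1 this with h | h
    · exact hd h
    · linarith
  have hca' : c ≠ 0 ∨ -a ≠ 0 := by
    by_contra hcon
    push Not at hcon
    exact hca ⟨hcon.1, neg_eq_zero.1 hcon.2⟩
  by_cases hne : ∀ x ∈ I, c * x + (-a) ≠ 0
  · refine h1 (-d) b c (-a) hca' fun x hx => ⟨hne x hx, ?_⟩
    rw [eq_div_iff (hne x hx)]
    linarith [hrelI x hx]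
  · push Not at hne
    obtain ⟨x0, hx0, hx0n⟩ := hne
    have hc : c ≠ 0 := by
      rintro rfl
      rw [zero_mul, zero_add] at hx0n
      rcases hca' with h | h
      · exact h rfl
      · exact h hx0n
    have h3 := hrelI x0 hx0
    rw [hx0n, zero_mul, zero_sub, neg_eq_zero] at h3
    have hprod : ∀ x ∈ I, (c * x + (-a)) * (g x - (-d) / c) = 0 := by
      intro x hx
      have h4 := hrelI x hx
      have h5 : c * b = a * d := by linear_combination c * h3 + d * hx0n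
      field_simp
      linear_combination c * h4 + h5
    rcases ((((c1 c).mul hid).add (c1 (-a)))).eq_zero_or_eq_zero_of_mul_eq_zero
      (hg.sub (c1 ((-d) / c))) hprod hIc with h | h
    · have e0 := h 0 (hρI ⟨by linarith, hρ⟩)
      have e1 := h (ρ / 2) (hρI ⟨by linarith, by linarith⟩)
      simp only [Pi.add_apply] at e0 e1
      have : c * (ρ / 2) = 0 := by linear_combination e1 - e0
      rcases mul_eq_zero.1 this with h | h
      · exact hc h
      · linarith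
    · refine h1 0 ((-d) / c) 0 1 (Or.inr one_ne_zero) fun x hx => ⟨by simp, ?_⟩
      have := h x hx
      simp only [Pi.sub_apply] at this
      simp only [zero_mul, zero_add, div_one]
      linarith

/-- Main theorem, for `Fin (2 + m)`. -/
theorem main_pos (m : ℕ) (I : Set ℝ) (hI : IsOpen I) (hIc : IsPreconnected I) (h0 : (0 : ℝ) ∈ I)
    (f g : ℕ → ℝ → ℝ) (hf : ∀ k, AnalyticOnNhd ℝ (f k) I) (hg : ∀ k, AnalyticOnNhd ℝ (g k) I)
    (h1 : ∀ k, NotMoebius I (g k)) (h2 : ∀ k l, NotMoebiusOf I (f k) (g l))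
    (hr : ∃ r : ℝ, 0 < r ∧ ∀ k, ∀ x : ℝ, |x| < r →
      Summable (fun j => cf (f k) j * x ^ j) ∧ Summable (fun j => cf (g k) j * x ^ j)) :
    ∃ A : Matrix (Fin (2 + m)) (Fin (2 + m)) ℝ, IsL A ∧ ∀ k, ∃ B C,
      HasSum (fun j => cf (f k) j • A ^ j) B ∧ HasSum (fun j => cf (g k) j • A ^ j) C ∧
      IsL B ∧ ¬ IsL C := by
  obtain ⟨r, hr0, hr⟩ := hr
  obtain ⟨ε, hε, hball⟩ := Metric.isOpen_iff.1 hI 0 h0
  set ρ : ℝ := min r ε with hρd
  have hρ : 0 < ρ := lt_min hr0 hε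
  have hρr : ρ ≤ r := min_le_left _ _
  have hρI : Ioo (-ρ) ρ ⊆ I := by
    intro x hx
    apply hball
    rw [Metric.mem_ball, Real.dist_eq, sub_zero]
    exact lt_of_lt_of_le (abs_lt.2 hx) (min_le_right _ _)
  set J : Set ℝ := Ioo (-ρ) ρ with hJ
  set F : ℕ → ℝ → ℝ := fun i => Nat.casesOn i id f with hF
  have hFa : ∀ i, AnalyticOnNhd ℝ (F i) J := by
    intro i
    cases i with
    | zero => exact analyticOnNhd_id
    | succ i => exact (hf i).mono hρI
  have hGa : ∀ i, AnalyticOnNhd ℝ (g i) J := fun i => (hg i).mono hρI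
  have hNM : ∀ i j, NM J (F i) (g j) := by
    intro i j
    cases i with
    | zero => exact NM_id hIc (hg j) hρ hρI (h1 j)
    | succ i => exact NM_of hIc (hf i) (hg j) hρ hρI (h1 j) (h2 i j)
  have hrJ : Icc (-(ρ / 2)) (ρ / 2) ⊆ J := fun x hx => ⟨by linarith [hx.1], by linarith [hx.2]⟩
  obtain ⟨x, y, t, hx, hy, ht1, ht2, hA, hB⟩ := core isOpen_Ioo isPreconnected_Ioo
    (show 0 < ρ / 2 by positivity) hrJ hFa hGa hNM
  have hxJ : x ∈ J := hrJ (abs_le.1 hx)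
  have hyJ : y ∈ J := hrJ (abs_le.1 hy)
  have ht0 : t ≠ 0 := by linarith
  -- the scalar
  have a1 : ∀ᵐ a, ∀ i, a ∈ J → D (F i a • (1 : Matrix (Fin 2) (Fin 2) ℝ)) := by
    rw [MeasureTheory.ae_all_iff]
    exact fun i => ae_scalar isOpen_Ioo isPreconnected_Ioo (hFa i) (hNM i 0).left_nonconst
  have a2 : ∀ᵐ a, ∀ i, a ∈ J → D (g i a • (1 : Matrix (Fin 2) (Fin 2) ℝ)) := by
    rw [MeasureTheory.ae_all_iff]
    exact fun i => ae_scalar isOpen_Ioo isPreconnected_Ioo (hGa i) (hNM 0 i).right_nonconst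
  obtain ⟨a, haJ, ha⟩ := (MeasureTheory.Measure.dense_of_ae (a1.and a2)).inter_open_nonempty J isOpen_Ioo
    ⟨0, ⟨by linarith, hρ⟩⟩
  have hF1 : ∀ k, HasSum (fun j => cf (f k) j • T m x y t a ^ j) (T m (f k x) (f k y) t (f k a)) :=
    fun k => hasSum_T ht0 (hasSum_taylor h0 (hf k) hr0 (fun z hz => (hr k z hz).1) hρ hρr hρI hxJ)
      (hasSum_taylor h0 (hf k) hr0 (fun z hz => (hr k z hz).1) hρ hρr hρI hyJ)
      (hasSum_taylor h0 (hf k) hr0 (fun z hz => (hr k z hz).1) hρ hρr hρI haJ)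
  have hG1 : ∀ k, HasSum (fun j => cf (g k) j • T m x y t a ^ j) (T m (g k x) (g k y) t (g k a)) :=
    fun k => hasSum_T ht0 (hasSum_taylor h0 (hg k) hr0 (fun z hz => (hr k z hz).2) hρ hρr hρI hxJ)
      (hasSum_taylor h0 (hg k) hr0 (fun z hz => (hr k z hz).2) hρ hρr hρI hyJ)
      (hasSum_taylor h0 (hg k) hr0 (fun z hz => (hr k z hz).2) hρ hρr hρI haJ)
  refine ⟨T m x y t a, isL_T (hA 0).1 (hA 0).2 (ha.1 0 haJ), fun k =>
    ⟨_, _, hF1 k, hG1 k, isL_T (hA (k + 1)).1 (hA (k + 1)).2 (ha.1 (k + 1) haJ),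
      not_isL_T (hB k) (ha.2 k haJ)⟩⟩

end Pool.Agent.K3h64.LV
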